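import Pool.Agent.TH55.PowD

set_option autoImplicit false
open MeasureTheory Filter Topology
open scoped FourierTransform SchwartzMap ENNReal

namespace Pool.Agent.Q168.BT

open Pool.Agent.TH55.PowA

/-- the Taylor coefficient at `z ^ k` of `((z + r) / (1 + r z)) ^ n` -/
noncomputable def cf (n k : ℕ) (r : ℝ) : ℝ :=
  ∑ i ∈ Finset.range (n + 1), if i ≤ k then
    (n.choose i : ℝ) * ((k - i + (n - 1)).choose (n - 1) : ℝ) * r ^ (n - i) * (-r) ^ (k - i) else 0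

lemma filt_tsum {N : ℕ} {ω : ℂ} (hω : IsPrimitiveRoot ω N) (hω1 : ‖ω‖ = 1)
    (a : ℕ → ℂ) (ha : Summable fun m => ‖a m‖) (e : ℕ) :
    ∑ j ∈ Finset.range N, (ω ^ j) ^ e * ∑' m, a m * (ω ^ j) ^ m
      = N * ∑' m, (if N ∣ e + m then a m else 0) := by
  have hs : ∀ j : ℕ, Summable fun m => (ω ^ j) ^ e * (a m * (ω ^ j) ^ m) := by
    intro j
    refine Summable.of_norm ?_
    refine ha.congr fun m => ?_
    simp only [norm_mul, norm_pow, hω1, one_pow, one_mul, mul_one]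
  have h1 : ∀ j ∈ Finset.range N, (ω ^ j) ^ e * ∑' m, a m * (ω ^ j) ^ m
      = ∑' m, (ω ^ j) ^ e * (a m * (ω ^ j) ^ m) := fun j _ => (tsum_mul_left).symm
  rw [Finset.sum_congr rfl h1, ← Summable.tsum_finsetSum fun j _ => hs j, ← tsum_mul_left]
  refine tsum_congr fun m => ?_
  have h2 : ∀ j ∈ Finset.range N, (ω ^ j) ^ e * (a m * (ω ^ j) ^ m) = a m * (ω ^ (e + m)) ^ j := by
    intro j _
    rw [← pow_mul, ← pow_mul, ← pow_mul, add_mul, pow_add, mul_comm e j, mul_comm m j]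
    ring
  rw [Finset.sum_congr rfl h2, ← Finset.mul_sum, root_sum hω]
  split_ifs
  · ring
  · ring

/-- averaged symbol -/
noncomputable def avp (n k N : ℕ) (r : ℝ)
    (hk : ∀ j : ℕ, ‖(r : ℂ) * (Complex.exp (2 * Real.pi * Complex.I / N)) ^ j‖ < 1) (ξ : ℂ) : ℂ :=
  ∑ j ∈ Finset.range N, ((N : ℂ)⁻¹ * ((Complex.exp (2 * Real.pi * Complex.I / N)) ^ j) ^
    (N + n - k)) *
    bs (Ae ((r : ℂ) * (Complex.exp (2 * Real.pi * Complex.I / N)) ^ j) (hk j) ξ) ^ n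

/-- the coefficients of the negative binomial series -/
noncomputable def ab (n : ℕ) (v : ℂ) (m : ℕ) : ℂ := ((m + (n - 1)).choose (n - 1) : ℂ) * v ^ m

lemma ab_summable (n : ℕ) (v : ℂ) (hv : ‖v‖ < 1) : Summable fun m => ‖ab n v m‖ := by
  have h := summable_norm_pow_mul_geometric_of_norm_lt_one (R := ℂ) 0 hv
  unfold ab
  exact (summable_choose_mul_geometric_of_norm_lt_one (n - 1) hv).norm

lemma ab_tsum (n : ℕ) (hn : 1 ≤ n) (v : ℂ) (hv : ‖v‖ < 1) : ∑' m, ab n v m = (1 / (1 - v)) ^ n := by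
  unfold ab
  rw [tsum_choose_mul_geometric_of_norm_lt_one (n - 1) hv, Nat.sub_add_cancel hn, one_div, one_div,
    inv_pow]

lemma avp_eq (n k N : ℕ) (hn : 1 ≤ n) (hN : k + n < N) (r : ℝ) (hr0 : 0 ≤ r) (hr1 : r < 1)
    (hk : ∀ j : ℕ, ‖(r : ℂ) * (Complex.exp (2 * Real.pi * Complex.I / N)) ^ j‖ < 1) (ξ : ℂ)
    (hξ : ξ ≠ 0) :
    avp n k N r hk ξ = ∑ i ∈ Finset.range (n + 1),
      ((n.choose i : ℂ) * bs ξ ^ i * (r : ℂ) ^ (n - i)) *
        ∑' m, (if N ∣ (N + n - k) + (N - 1) * (n - i) + m then ab n (-(r : ℂ) * bs ξ) m else 0) := by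
  have hN0 : N ≠ 0 := by omega
  have hNp : 0 < N := by omega
  have hNc : (N : ℂ) ≠ 0 := by exact_mod_cast hN0
  obtain ⟨ω, hω⟩ : ∃ ω : ℂ, ω = Complex.exp (2 * Real.pi * Complex.I / N) := ⟨_, rfl⟩
  have hpr : IsPrimitiveRoot ω N := by rw [hω]; exact Complex.isPrimitiveRoot_exp N hN0
  have hω1 : ‖ω‖ = 1 := hpr.norm'_eq_one hN0
  have hcc : (starRingEnd ℂ) ω = ω ^ (N - 1) := by
    have h1 : ω * (starRingEnd ℂ) ω = 1 := by
      rw [c_conj, hω1]; simp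
    have h2 : ω * ω ^ (N - 1) = 1 := by
      rw [← pow_succ', Nat.sub_add_cancel hNp, hpr.pow_eq_one]
    have h3 : ω ≠ 0 := by intro h; rw [h] at hω1; simp at hω1
    exact mul_left_cancel₀ h3 (h1.trans h2.symm)
  have hb := bs_norm ξ hξ
  have hv : ‖-(r : ℂ) * bs ξ‖ < 1 := by
    rw [norm_mul, hb, mul_one, norm_neg, Complex.norm_real, Real.norm_of_nonneg hr0]
    exact hr1
  unfold avp
  simp only [← hω]
  have hterm : ∀ j ∈ Finset.range N, ((N : ℂ)⁻¹ * (ω ^ j) ^ (N + n - k)) *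
      bs (Ae ((r : ℂ) * ω ^ j) (by rw [hω]; exact hk j) ξ) ^ n
      = ∑ i ∈ Finset.range (n + 1), ((n.choose i : ℂ) * bs ξ ^ i * (r : ℂ) ^ (n - i)) *
        ((N : ℂ)⁻¹ * ((ω ^ j) ^ ((N + n - k) + (N - 1) * (n - i)) *
          ∑' m, ab n (-(r : ℂ) * bs ξ) m * (ω ^ j) ^ m)) := by
    intro j _
    have hcj : ‖(r : ℂ) * ω ^ j‖ < 1 := by rw [hω]; exact hk j
    have hne := one_add_ne ((r : ℂ) * ω ^ j) hcj (bs ξ) hb
    have e0 : bs (Ae ((r : ℂ) * ω ^ j) hcj ξ)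
        = (bs ξ + (r : ℂ) * (ω ^ j) ^ (N - 1)) * (1 / (1 - ω ^ j * (-(r : ℂ) * bs ξ))) := by
      rw [bs_Ae _ _ ξ hξ]
      have e1 : (starRingEnd ℂ) ((r : ℂ) * ω ^ j) = r * (ω ^ j) ^ (N - 1) := by
        rw [map_mul, Complex.conj_ofReal, map_pow, hcc, ← pow_mul, ← pow_mul, mul_comm j]
      rw [e1]
      have e4 : (1 : ℂ) - ω ^ j * (-(r : ℂ) * bs ξ) = 1 + (r : ℂ) * ω ^ j * bs ξ := by ring
      rw [e4]
      field_simp
      ring
    have e5 : (1 / (1 - ω ^ j * (-(r : ℂ) * bs ξ))) ^ n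
        = ∑' m, ab n (-(r : ℂ) * bs ξ) m * (ω ^ j) ^ m := by
      have h6 : ‖ω ^ j * (-(r : ℂ) * bs ξ)‖ < 1 := by
        rw [norm_mul, norm_pow, hω1, one_pow, one_mul]
        exact hv
      rw [← ab_tsum n hn _ h6]
      refine tsum_congr fun m => ?_
      unfold ab
      rw [mul_pow]
      ring
    rw [e0, mul_pow, e5, add_pow, Finset.sum_mul, Finset.mul_sum]
    refine Finset.sum_congr rfl fun i _ => ?_
    rw [mul_pow, pow_add, ← pow_mul (ω ^ j) (N - 1) (n - i)]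
    ring
  rw [Finset.sum_congr rfl hterm, Finset.sum_comm]
  refine Finset.sum_congr rfl fun i _ => ?_
  rw [← Finset.mul_sum, ← Finset.mul_sum, filt_tsum hpr hω1 _ (ab_summable n _ hv), ← mul_assoc
    ((N : ℂ)⁻¹), inv_mul_cancel₀ hNc, one_mul]

lemma dvd_iff (n k i m N : ℕ) (hi : i ≤ n) (hN : k + n + i + m < N) :
    N ∣ (N + n - k) + (N - 1) * (n - i) + m ↔ i + m = k := by
  obtain ⟨t, rfl⟩ : ∃ t, n = i + t := ⟨n - i, by omega⟩
  obtain ⟨N', rfl⟩ : ∃ N', N = N' + 1 := ⟨N - 1, by omega⟩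
  rw [Nat.add_sub_cancel_left, Nat.add_sub_cancel]
  have h0 : (N' + 1 + (i + t) - k) + N' * t + m + k = (N' + 1) * (t + 1) + (i + m) := by
    have : N' + 1 + (i + t) - k + k = N' + 1 + (i + t) := Nat.sub_add_cancel (by omega)
    calc (N' + 1 + (i + t) - k) + N' * t + m + k
        = (N' + 1 + (i + t) - k + k) + N' * t + m := by ring
      _ = _ := by rw [this]; ring
  set X := (N' + 1 + (i + t) - k) + N' * t + m with hX
  constructor
  · rintro ⟨q, hq⟩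
    rw [hq] at h0
    -- (N'+1) q + k = (N'+1)(t+1) + (i+m)
    have hk' : k < N' + 1 := by omega
    have him : i + m < N' + 1 := by omega
    have h1 : ((N' + 1) * q + k) % (N' + 1) = ((N' + 1) * (t + 1) + (i + m)) % (N' + 1) := by
      rw [h0]
    rw [Nat.mul_add_mod, Nat.mul_add_mod, Nat.mod_eq_of_lt hk', Nat.mod_eq_of_lt him] at h1
    exact h1.symm
  · intro h
    rw [h] at h0
    have : X = (N' + 1) * (t + 1) := Nat.add_right_cancel h0
    rw [this]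
    exact Nat.dvd_mul_right _ _

lemma hk_of' {N : ℕ} (hN : N ≠ 0) {k : ℝ} (hk0 : 0 ≤ k) (hk1 : k < 1) (j : ℕ) :
    ‖(k : ℂ) * (Complex.exp (2 * Real.pi * Complex.I / N)) ^ j‖ < 1 := hk_of hN hk0 hk1 j

lemma tendsto_avp (n k : ℕ) (hn : 1 ≤ n) (r : ℝ) (hr0 : 0 ≤ r) (hr1 : r < 1) (ξ : ℂ) (hξ : ξ ≠ 0) :
    Tendsto (fun M : ℕ => avp n k (k + n + 1 + M) r (fun j => hk_of (by omega) hr0 hr1 j) ξ) atTop
      (𝓝 ((cf n k r : ℂ) * bs ξ ^ k)) := by
  have h1 : ∀ M : ℕ, avp n k (k + n + 1 + M) r (fun j => hk_of (by omega) hr0 hr1 j) ξ =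
      ∑ i ∈ Finset.range (n + 1),
      ((n.choose i : ℂ) * bs ξ ^ i * (r : ℂ) ^ (n - i)) *
        ∑' m, (if (k + n + 1 + M) ∣ ((k + n + 1 + M) + n - k) + ((k + n + 1 + M) - 1) * (n - i) + m
          then ab n (-(r : ℂ) * bs ξ) m else 0) := fun M =>
    avp_eq n k (k + n + 1 + M) hn (by omega) r hr0 hr1 _ ξ hξ
  simp only [h1]
  have hv : ‖-(r : ℂ) * bs ξ‖ < 1 := by
    rw [norm_mul, bs_norm ξ hξ, mul_one, norm_neg, Complex.norm_real, Real.norm_of_nonneg hr0]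
    exact hr1
  have h2 : ∀ i ∈ Finset.range (n + 1), Tendsto (fun M : ℕ =>
      ((n.choose i : ℂ) * bs ξ ^ i * (r : ℂ) ^ (n - i)) *
        ∑' m, (if (k + n + 1 + M) ∣ ((k + n + 1 + M) + n - k) + ((k + n + 1 + M) - 1) * (n - i) + m
          then ab n (-(r : ℂ) * bs ξ) m else 0)) atTop
      (𝓝 (((n.choose i : ℂ) * bs ξ ^ i * (r : ℂ) ^ (n - i)) *
        ∑' m, (if i + m = k then ab n (-(r : ℂ) * bs ξ) m else 0))) := by
    intro i hi
    have hi' : i ≤ n := Nat.lt_succ_iff.1 (Finset.mem_range.1 hi)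
    refine Tendsto.const_mul _ ?_
    refine tendsto_tsum_of_dominated_convergence (ab_summable n _ hv) (fun m => ?_) ?_
    · refine tendsto_const_nhds.congr' ?_
      filter_upwards [eventually_ge_atTop (i + m)] with M hM
      have := dvd_iff n k i m (k + n + 1 + M) hi' (by omega)
      simp only [this]
    · refine Eventually.of_forall fun M m => ?_
      split_ifs
      · exact le_rfl
      · rw [norm_zero]; exact norm_nonneg _
  have h3 := tendsto_finsetSum _ h2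
  convert h3 using 2
  unfold cf
  rw [Complex.ofReal_sum, Finset.sum_mul]
  refine Finset.sum_congr rfl fun i hi => ?_
  by_cases hik : i ≤ k
  · rw [if_pos hik]
    rw [tsum_eq_single (k - i)]
    · rw [if_pos (by omega)]
      unfold ab
      rw [mul_pow]
      have : bs ξ ^ k = bs ξ ^ i * bs ξ ^ (k - i) := by
        rw [← pow_add, Nat.add_sub_cancel' hik]
      rw [this]
      push_cast
      ring
    · intro m hm
      rw [if_neg]
      omega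
  · rw [if_neg hik, Complex.ofReal_zero, zero_mul]
    have : ∀ m : ℕ, (if i + m = k then ab n (-(r : ℂ) * bs ξ) m else 0) = 0 := by
      intro m
      rw [if_neg]
      omega
    simp only [this, tsum_zero, mul_zero]

lemma norm_avp_le {n k N : ℕ} (hN : N ≠ 0) (r : ℝ)
    (hk : ∀ j : ℕ, ‖(r : ℂ) * (Complex.exp (2 * Real.pi * Complex.I / N)) ^ j‖ < 1) (ξ : ℂ) :
    ‖avp n k N r hk ξ‖ ≤ 1 := by
  unfold avp
  refine (norm_sum_le _ _).trans ?_
  have h : ∀ j ∈ Finset.range N, ‖((N : ℂ)⁻¹ * ((Complex.exp (2 * Real.pi * Complex.I / N)) ^ j) ^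
      (N + n - k)) * bs (Ae ((r : ℂ) * (Complex.exp (2 * Real.pi * Complex.I / N)) ^ j) (hk j) ξ) ^ n‖
      ≤ (N : ℝ)⁻¹ := by
    intro j _
    rw [norm_mul, norm_mul, norm_pow, norm_pow, om_norm N hN, one_pow, one_pow, mul_one,
      norm_inv, RCLike.norm_natCast, norm_pow]
    exact mul_le_of_le_one_right (by positivity) (pow_le_one₀ (norm_nonneg _) (bs_norm_le _))
  refine (Finset.sum_le_sum h).trans ?_
  rw [Finset.sum_const, Finset.card_range, nsmul_eq_mul, mul_inv_cancel₀ (by exact_mod_cast hN)]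

lemma adm_bsn (n : ℕ) (c : ℂ) (hc : ‖c‖ < 1) : Adm (fun ξ => bs (Ae c hc ξ) ^ n) :=
  ⟨(adm_bs c hc).meas.pow_const n, fun ξ => by
    rw [norm_pow]; exact pow_le_one₀ (norm_nonneg _) (bs_norm_le _)⟩

lemma adm_avp {n k N : ℕ} (hN : N ≠ 0) (r : ℝ)
    (hk : ∀ j : ℕ, ‖(r : ℂ) * (Complex.exp (2 * Real.pi * Complex.I / N)) ^ j‖ < 1) :
    Adm (avp n k N r hk) := by
  refine ⟨?_, norm_avp_le hN r hk⟩
  unfold avp
  exact Finset.measurable_fun_sum _ fun j _ => (adm_bsn n _ (hk j)).meas.const_mul _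

lemma T_tendsto' (n k : ℕ) (hn : 1 ≤ n) (r : ℝ) (hr0 : 0 ≤ r) (hr1 : r < 1) (f : 𝓢(ℂ, ℂ)) (z : ℂ) :
    Tendsto (fun M : ℕ => T (avp n k (k + n + 1 + M) r (fun j => hk_of (by omega) hr0 hr1 j)) f z)
      atTop (𝓝 ((cf n k r : ℂ) * T (fun ξ => bs ξ ^ k) f z)) := by
  have e : (cf n k r : ℂ) * T (fun ξ => bs ξ ^ k) f z = ∫ ξ : ℂ,
      Complex.exp (2 * (Real.pi : ℂ) * Complex.I * ((sm z ξ : ℝ) : ℂ)) *
        (((cf n k r : ℂ) * bs ξ ^ k) * Ft f ξ) := by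
    unfold T
    rw [← integral_const_mul]
    refine integral_congr_ae (Eventually.of_forall fun ξ => ?_)
    simp only
    ring
  rw [e]
  unfold T
  refine tendsto_integral_of_dominated_convergence (fun ξ => ‖Ft f ξ‖)
    (fun M => (T_integrand_int (adm_avp (by omega) r _) f z).aestronglyMeasurable)
    (Ft_int f).norm (fun M => Eventually.of_forall fun ξ => ?_) ?_
  · rw [norm_mul, norm_ex, one_mul, norm_mul]
    calc _ ≤ 1 * ‖Ft f ξ‖ := by gcongr; exact norm_avp_le (by omega) r _ ξ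
      _ = _ := one_mul _
  · filter_upwards [ae_ne] with ξ hξ
    exact ((tendsto_avp n k hn r hr0 hr1 ξ hξ).mul_const _).const_mul _

lemma weight_sum' {n k N : ℕ} (hN : N ≠ 0) :
    ∑ j ∈ Finset.range N, ‖((N : ℂ)⁻¹ * ((Complex.exp (2 * Real.pi * Complex.I / N)) ^ j) ^
      (N + n - k))‖ₑ = 1 := by
  have h : ∀ j ∈ Finset.range N, ‖((N : ℂ)⁻¹ * ((Complex.exp (2 * Real.pi * Complex.I / N)) ^ j) ^
      (N + n - k))‖ₑ = (N : ℝ≥0∞)⁻¹ := by
    intro j _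
    rw [enorm_mul, enorm_pow, enorm_pow]
    have h1 : ‖Complex.exp (2 * Real.pi * Complex.I / N)‖ₑ = 1 := by
      rw [← ofReal_norm, om_norm N hN, ENNReal.ofReal_one]
    rw [h1, one_pow, one_pow, mul_one, ← ofReal_norm, norm_inv, RCLike.norm_natCast,
      ENNReal.ofReal_inv_of_pos (by positivity), ENNReal.ofReal_natCast]
  rw [Finset.sum_congr rfl h, Finset.sum_const, Finset.card_range, nsmul_eq_mul,
    ENNReal.mul_inv_cancel (by exact_mod_cast hN) (ENNReal.natCast_ne_top N)]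

lemma avp_bound {P : ℝ≥0∞} (hP : 1 ≤ P) (hP' : P ≠ ∞) {K : ℝ≥0∞} {n : ℕ}
    (hb : ∀ f : 𝓢(ℂ, ℂ), eLpNorm (T (fun ξ => bs ξ ^ n) f) P volume ≤ K * eLpNorm f P volume)
    {k N : ℕ} (hN : N ≠ 0) (r : ℝ)
    (hk : ∀ j : ℕ, ‖(r : ℂ) * (Complex.exp (2 * Real.pi * Complex.I / N)) ^ j‖ < 1)
    (f : 𝓢(ℂ, ℂ)) : eLpNorm (T (avp n k N r hk) f) P volume ≤ K * eLpNorm f P volume := by
  have h2 := avg_bound hP (Finset.range N)
    (fun j => (((N : ℂ))⁻¹ * ((Complex.exp (2 * Real.pi * Complex.I / N)) ^ j) ^ (N + n - k)))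
    (fun j ξ => bs (Ae ((r : ℂ) * (Complex.exp (2 * Real.pi * Complex.I / N)) ^ j) (hk j) ξ) ^ n)
    (fun j _ => adm_bsn n _ (hk j)) f
    (fun j _ => bound_cmp hP' (fun ξ => bs ξ ^ n) hb _ (hk j) f)
  rw [weight_sum' hN, one_mul] at h2
  exact h2

/-- **the comparison of the powers** -/
lemma cmp_main {P : ℝ≥0∞} (hP : 1 ≤ P) (hP' : P ≠ ∞) {K : ℝ≥0∞} {n : ℕ} (hn : 1 ≤ n)
    (hb : ∀ f : 𝓢(ℂ, ℂ), eLpNorm (T (fun ξ => bs ξ ^ n) f) P volume ≤ K * eLpNorm f P volume)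
    (k : ℕ) (r : ℝ) (hr0 : 0 ≤ r) (hr1 : r < 1) (f : 𝓢(ℂ, ℂ)) :
    ‖(cf n k r : ℂ)‖ₑ * eLpNorm (T (fun ξ => bs ξ ^ k) f) P volume ≤ K * eLpNorm f P volume := by
  rw [← eLpNorm_const_smul]
  refine Lp.eLpNorm_le_of_ae_tendsto (u := atTop)
    (f := fun M : ℕ => T (avp n k (k + n + 1 + M) r (fun j => hk_of (by omega) hr0 hr1 j)) f)
    (Eventually.of_forall fun M => avp_bound hP hP' hb (by omega) r _ f)
    (fun M => (T_cont (adm_avp (by omega) r _) f).aestronglyMeasurable)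
    (Eventually.of_forall fun z => T_tendsto' n k hn r hr0 hr1 f z)

end Pool.Agent.Q168.BT
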