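import Pool.Agent.Q168.BT.Cmp

set_option autoImplicit false

namespace Pool.Agent.Q168.BT

lemma alt_nonneg : ∀ (m : ℕ) (u : ℕ → ℝ), (∀ l, 0 ≤ u l) → (∀ l, u (l + 1) ≤ u l) →
    0 ≤ ∑ l ∈ Finset.range m, (-1 : ℝ) ^ l * u l
  | 0, _, _, _ => by simp
  | 1, u, h0, _ => by simpa using h0 0
  | m + 2, u, h0, h1 => by
    rw [Finset.sum_range_succ', Finset.sum_range_succ']
    have h := alt_nonneg m (fun l => u (l + 2)) (fun l => h0 _) (fun l => h1 _)
    have e : ∑ l ∈ Finset.range m, (-1 : ℝ) ^ (l + 1 + 1) * u (l + 1 + 1)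
        = ∑ l ∈ Finset.range m, (-1 : ℝ) ^ l * u (l + 2) := by
      refine Finset.sum_congr rfl fun l _ => ?_
      rw [pow_add, pow_add]
      norm_num
    rw [e]
    have h2 := h1 0
    simp only [zero_add, pow_one, pow_zero, one_mul, neg_mul] at h2 ⊢
    linarith

lemma alt_lower (m : ℕ) (u : ℕ → ℝ) (h0 : ∀ l, 0 ≤ u l) (ρ : ℝ) (hρ : ρ ≤ 1)
    (h1 : ∀ l, u (l + 1) ≤ ρ * u l) :
    (1 - ρ) * u 0 ≤ ∑ l ∈ Finset.range (m + 1), (-1 : ℝ) ^ l * u l := by
  have h1' : ∀ l, u (l + 1) ≤ u l := fun l =>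
    (h1 l).trans (by nlinarith [h0 l])
  have hρ0 : u 1 ≤ ρ * u 0 := h1 0
  rcases m with _ | m
  · simp only [zero_add, Finset.sum_range_one, pow_zero, one_mul]
    have := h0 1
    linarith
  · rw [Finset.sum_range_succ', Finset.sum_range_succ']
    have h := alt_nonneg m (fun l => u (l + 2)) (fun l => h0 _) (fun l => h1' _)
    have e : ∑ l ∈ Finset.range m, (-1 : ℝ) ^ (l + 1 + 1) * u (l + 1 + 1)
        = ∑ l ∈ Finset.range m, (-1 : ℝ) ^ l * u (l + 2) := by
      refine Finset.sum_congr rfl fun l _ => ?_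
      rw [pow_add, pow_add]
      norm_num
    rw [e]
    simp only [zero_add, pow_one, pow_zero, one_mul, neg_mul]
    linarith

/-- the terms of the first sum -/
noncomputable def ua (n : ℕ) (r : ℝ) (l : ℕ) : ℝ :=
  (n.choose l : ℝ) * ((n + l).choose (l + 1) : ℝ) * r ^ (2 * l + 1)

lemma ua_nonneg (n : ℕ) (r : ℝ) (hr : 0 ≤ r) (l : ℕ) : 0 ≤ ua n r l := by
  unfold ua; positivity

lemma ua_step (n : ℕ) (r : ℝ) (hr : 0 ≤ r) (l : ℕ) :
    ua n r (l + 1) ≤ ((n : ℝ) * (n + 1) / 2 * r ^ 2) * ua n r l := by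
  rcases Nat.lt_or_ge n (l + 1) with h | h
  · have : ua n r (l + 1) = 0 := by
      unfold ua
      rw [Nat.choose_eq_zero_of_lt h]
      simp
    rw [this]
    have := ua_nonneg n r hr l
    positivity
  · have e1 : (n.choose (l + 1) : ℝ) * (l + 1) = n.choose l * (n - l) := by
      have := Nat.choose_succ_right_eq n l
      have h' : l ≤ n := by omega
      have := congrArg (Nat.cast : ℕ → ℝ) this
      push_cast [Nat.cast_sub h'] at this
      exact this
    have e2 : ((n + (l + 1)).choose (l + 1 + 1) : ℝ) * (l + 2)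
        = (n + l + 1) * (n + l).choose (l + 1) := by
      have := Nat.add_one_mul_choose_eq (n + l) (l + 1)
      have := congrArg (Nat.cast : ℕ → ℝ) this
      push_cast at this
      rw [show n + (l + 1) = n + l + 1 by ring]
      linarith
    have hl : (l : ℝ) + 1 ≤ n := by exact_mod_cast h
    have hl0 : (0 : ℝ) ≤ l := Nat.cast_nonneg l
    have h3 : ((n : ℝ) - l) * (n + l + 1) ≤ n * (n + 1) / 2 * ((l + 1) * (l + 2)) := by
      have hn0 : (0 : ℝ) ≤ n := Nat.cast_nonneg n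
      nlinarith [mul_nonneg hl0 hl0, mul_nonneg hn0 hl0, mul_nonneg (mul_nonneg hn0 hn0) hl0,
        mul_nonneg (mul_nonneg hn0 hn0) (mul_nonneg hl0 hl0), mul_nonneg hn0 (mul_nonneg hl0 hl0)]
    have h4 : ua n r (l + 1) * ((l + 1) * (l + 2))
        = (((n : ℝ) - l) * (n + l + 1)) * r ^ 2 * ua n r l := by
      unfold ua
      calc _ = ((n.choose (l + 1) : ℝ) * (l + 1)) *
            (((n + (l + 1)).choose (l + 1 + 1) : ℝ) * (l + 2)) * r ^ (2 * (l + 1) + 1) := by ring
        _ = _ := by rw [e1, e2]; ring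
    have hpos : (0 : ℝ) < (l + 1) * (l + 2) := by positivity
    have h5 := ua_nonneg n r hr l
    refine le_of_mul_le_mul_right ?_ hpos
    rw [h4]
    calc (((n : ℝ) - l) * (n + l + 1)) * r ^ 2 * ua n r l
        ≤ (n * (n + 1) / 2 * ((l + 1) * (l + 2))) * r ^ 2 * ua n r l := by gcongr
      _ = _ := by ring

/-- the terms of the second sum -/
noncomputable def ub (n : ℕ) (r : ℝ) (l : ℕ) : ℝ :=
  ((n + 1).choose (l + 1) : ℝ) * ((n + l).choose l : ℝ) * r ^ (2 * l + 1)

lemma ub_nonneg (n : ℕ) (r : ℝ) (hr : 0 ≤ r) (l : ℕ) : 0 ≤ ub n r l := by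
  unfold ub; positivity

lemma ub_step (n : ℕ) (r : ℝ) (hr : 0 ≤ r) (l : ℕ) :
    ub n r (l + 1) ≤ ((n : ℝ) * (n + 1) / 2 * r ^ 2) * ub n r l := by
  rcases Nat.lt_or_ge n (l + 1) with h | h
  · have : ub n r (l + 1) = 0 := by
      unfold ub
      rw [Nat.choose_eq_zero_of_lt (show n + 1 < l + 1 + 1 by omega)]
      simp
    rw [this]
    have := ub_nonneg n r hr l
    positivity
  · have e1 : ((n + 1).choose (l + 1 + 1) : ℝ) * (l + 2) = (n + 1).choose (l + 1) * (n - l) := by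
      have := Nat.choose_succ_right_eq (n + 1) (l + 1)
      have h' : l ≤ n := by omega
      rw [Nat.add_sub_add_right] at this
      have := congrArg (Nat.cast : ℕ → ℝ) this
      push_cast [Nat.cast_sub h'] at this
      linarith
    have e2 : ((n + (l + 1)).choose (l + 1) : ℝ) * (l + 1)
        = (n + l + 1) * (n + l).choose l := by
      have := Nat.add_one_mul_choose_eq (n + l) l
      have := congrArg (Nat.cast : ℕ → ℝ) this
      push_cast at this
      rw [show n + (l + 1) = n + l + 1 by ring]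
      linarith
    have hl : (l : ℝ) + 1 ≤ n := by exact_mod_cast h
    have hl0 : (0 : ℝ) ≤ l := Nat.cast_nonneg l
    have h3 : ((n : ℝ) - l) * (n + l + 1) ≤ n * (n + 1) / 2 * ((l + 1) * (l + 2)) := by
      have hn0 : (0 : ℝ) ≤ n := Nat.cast_nonneg n
      nlinarith [mul_nonneg hl0 hl0, mul_nonneg hn0 hl0, mul_nonneg (mul_nonneg hn0 hn0) hl0,
        mul_nonneg (mul_nonneg hn0 hn0) (mul_nonneg hl0 hl0), mul_nonneg hn0 (mul_nonneg hl0 hl0)]
    have h4 : ub n r (l + 1) * ((l + 1) * (l + 2))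
        = (((n : ℝ) - l) * (n + l + 1)) * r ^ 2 * ub n r l := by
      unfold ub
      calc _ = (((n + 1).choose (l + 1 + 1) : ℝ) * (l + 2)) *
            (((n + (l + 1)).choose (l + 1) : ℝ) * (l + 1)) * r ^ (2 * (l + 1) + 1) := by ring
        _ = _ := by rw [e1, e2]; ring
    have hpos : (0 : ℝ) < (l + 1) * (l + 2) := by positivity
    have h5 := ub_nonneg n r hr l
    refine le_of_mul_le_mul_right ?_ hpos
    rw [h4]
    calc (((n : ℝ) - l) * (n + l + 1)) * r ^ 2 * ub n r l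
        ≤ (n * (n + 1) / 2 * ((l + 1) * (l + 2))) * r ^ 2 * ub n r l := by gcongr
      _ = _ := by ring

lemma cf_up (n : ℕ) (hn : 1 ≤ n) (r : ℝ) :
    cf n (n + 1) r = -∑ l ∈ Finset.range (n + 1), (-1 : ℝ) ^ l * ua n r l := by
  unfold cf
  rw [← Finset.sum_range_reflect, ← Finset.sum_neg_distrib]
  refine Finset.sum_congr rfl fun l hl => ?_
  have hl' : l ≤ n := Nat.lt_succ_iff.1 (Finset.mem_range.1 hl)
  rw [if_pos (by omega)]
  have e1 : n + 1 - 1 - l = n - l := by omega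
  have e2 : n - (n - l) = l := by omega
  have e3 : n + 1 - (n - l) = l + 1 := by omega
  rw [e1, e2, e3]
  unfold ua
  have e4 : (n.choose (n - l)) = n.choose l := Nat.choose_symm hl'
  have e5 : (l + 1 + (n - 1)).choose (n - 1) = (n + l).choose (l + 1) := by
    rw [show l + 1 + (n - 1) = n + l by omega]
    exact (Nat.choose_symm_of_eq_add (by omega))
  rw [e4, e5, neg_pow r (l + 1), pow_succ (-1 : ℝ) l]
  ring

lemma cf_down (n : ℕ) (r : ℝ) :
    cf (n + 1) n r = ∑ l ∈ Finset.range (n + 1), (-1 : ℝ) ^ l * ub n r l := by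
  unfold cf
  rw [Finset.sum_range_succ, if_neg (by omega), add_zero, ← Finset.sum_range_reflect]
  refine Finset.sum_congr rfl fun l hl => ?_
  have hl' : l ≤ n := Nat.lt_succ_iff.1 (Finset.mem_range.1 hl)
  rw [if_pos (by omega)]
  have e1 : n + 1 - 1 - l = n - l := by omega
  have e2 : n + 1 - (n - l) = l + 1 := by omega
  have e3 : n - (n - l) = l := by omega
  rw [e1, e2, e3]
  unfold ub
  have e4 : ((n + 1).choose (n - l)) = (n + 1).choose (l + 1) :=
    Nat.choose_symm_of_eq_add (by omega)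
  have e5 : (l + (n + 1 - 1)).choose (n + 1 - 1) = (n + l).choose l := by
    rw [show l + (n + 1 - 1) = n + l by omega]
    exact (Nat.choose_symm_of_eq_add (by omega))
  rw [e4, e5, neg_pow r l]
  ring

/-- the radius -/
noncomputable def rr (n : ℕ) : ℝ := Real.sqrt (2 / (3 * (n * (n + 1))))

lemma rr_nonneg (n : ℕ) : 0 ≤ rr n := Real.sqrt_nonneg _

lemma rr_sq (n : ℕ) : rr n ^ 2 = 2 / (3 * ((n : ℝ) * (n + 1))) :=
  Real.sq_sqrt (by positivity)

lemma rr_lt (n : ℕ) (hn : 1 ≤ n) : rr n < 1 := by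
  have hnr : (1 : ℝ) ≤ n := by exact_mod_cast hn
  unfold rr
  rw [Real.sqrt_lt' one_pos, one_pow, div_lt_one (by positivity)]
  nlinarith

lemma rho (n : ℕ) (hn : 1 ≤ n) : (n : ℝ) * (n + 1) / 2 * rr n ^ 2 = 1 / 3 := by
  have hnr : (1 : ℝ) ≤ n := by exact_mod_cast hn
  rw [rr_sq]
  field_simp

lemma cf_up_bound (n : ℕ) (hn : 1 ≤ n) : 2 / 3 * (n * rr n) ≤ |cf n (n + 1) (rr n)| := by
  rw [cf_up n hn, abs_neg]
  refine le_trans ?_ (le_abs_self _)
  have h := alt_lower n (ua n (rr n)) (ua_nonneg n _ (rr_nonneg n)) (1 / 3) (by norm_num)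
    (fun l => by have := ua_step n (rr n) (rr_nonneg n) l; rwa [rho n hn] at this)
  refine le_trans (le_of_eq ?_) h
  unfold ua
  norm_num [Nat.choose_one_right]
  try ring

lemma cf_down_bound (n : ℕ) (hn : 1 ≤ n) :
    2 / 3 * ((n + 1) * rr n) ≤ |cf (n + 1) n (rr n)| := by
  rw [cf_down n]
  refine le_trans ?_ (le_abs_self _)
  have h := alt_lower n (ub n (rr n)) (ub_nonneg n _ (rr_nonneg n)) (1 / 3) (by norm_num)
    (fun l => by have := ub_step n (rr n) (rr_nonneg n) l; rwa [rho n hn] at this)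
  refine le_trans (le_of_eq ?_) h
  unfold ub
  norm_num [Nat.choose_one_right]
  try ring

lemma const_up (n : ℕ) (hn : 1 ≤ n) :
    (2 / 3 * (n * rr n)) * (3 / 2 * Real.sqrt (3 * (n + 1) / (2 * n))) = 1 := by
  have hnr : (1 : ℝ) ≤ n := by exact_mod_cast hn
  have h : rr n * Real.sqrt (3 * (n + 1) / (2 * n)) = 1 / n := by
    unfold rr
    rw [← Real.sqrt_mul (by positivity)]
    rw [show (2 / (3 * ((n : ℝ) * (n + 1))) * (3 * (n + 1) / (2 * n))) = (1 / n) ^ 2 by
      field_simp]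
    exact Real.sqrt_sq (by positivity)
  calc _ = n * (rr n * Real.sqrt (3 * (n + 1) / (2 * n))) := by ring
    _ = 1 := by rw [h]; field_simp

lemma const_down (n : ℕ) (hn : 1 ≤ n) :
    (2 / 3 * ((n + 1) * rr n)) * (3 / 2 * Real.sqrt (3 * n / (2 * (n + 1)))) = 1 := by
  have hnr : (1 : ℝ) ≤ n := by exact_mod_cast hn
  have h : rr n * Real.sqrt (3 * n / (2 * (n + 1))) = 1 / (n + 1) := by
    unfold rr
    rw [← Real.sqrt_mul (by positivity)]
    rw [show (2 / (3 * ((n : ℝ) * (n + 1))) * (3 * n / (2 * (n + 1)))) = (1 / (n + 1)) ^ 2 by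
      field_simp]
    exact Real.sqrt_sq (by positivity)
  calc _ = (n + 1) * (rr n * Real.sqrt (3 * n / (2 * (n + 1)))) := by ring
    _ = 1 := by rw [h]; field_simp

end Pool.Agent.Q168.BT
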