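import Pool.Agent.Q168.BT.Poch

set_option autoImplicit false
open Filter Topology

namespace Pool.Agent.Q168.BT

lemma log_upper (b : ℝ) (h0 : 0 ≤ b) (h1 : b < 1) :
    Real.log (1 + b) - Real.log (1 - b) ≤ 2 / 3 * b * (1 - b ^ 2)⁻¹ + 4 / 3 * b := by
  have h := Real.hasSum_log_sub_log_of_abs_lt_one (x := b) (by rw [abs_of_nonneg h0]; exact h1)
  have hb2 : b ^ 2 < 1 := by nlinarith
  have g := (hasSum_geometric_of_lt_one (sq_nonneg b) hb2).mul_left (2 / 3 * b)
  have g2 : HasSum (fun k : ℕ => if k = 0 then 4 / 3 * b else 0) (4 / 3 * b) :=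
    hasSum_ite_eq 0 (4 / 3 * b)
  refine hasSum_le (fun k => ?_) h (g.add g2)
  rcases k with _ | k
  · simp only [Nat.cast_zero, mul_zero, zero_add, pow_zero, mul_one, if_true, pow_one]
    linarith
  · rw [if_neg (by omega), add_zero]
    have e : b ^ (2 * (k + 1) + 1) = b * (b ^ 2) ^ (k + 1) := by
      rw [pow_succ, pow_mul]; ring
    rw [e]
    have h3 : 0 ≤ b * (b ^ 2) ^ (k + 1) := by positivity
    have h4 : (2 : ℝ) * (1 / (2 * ((k + 1 : ℕ) : ℝ) + 1)) ≤ 2 / 3 := by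
      rw [mul_one_div, div_le_div_iff_of_pos_left (by norm_num) (by positivity) (by norm_num)]
      push_cast
      have : (0 : ℝ) ≤ k := Nat.cast_nonneg k
      linarith
    calc 2 * (1 / (2 * ((k + 1 : ℕ) : ℝ) + 1)) * (b * (b ^ 2) ^ (k + 1))
        ≤ 2 / 3 * (b * (b ^ 2) ^ (k + 1)) := mul_le_mul_of_nonneg_right h4 h3
      _ = _ := by ring

lemma log_lower (b : ℝ) (h0 : 0 ≤ b) (h1 : b < 1) :
    2 * b ≤ Real.log (1 + b) - Real.log (1 - b) := by
  have h := Real.hasSum_log_sub_log_of_abs_lt_one (x := b) (by rw [abs_of_nonneg h0]; exact h1)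
  have h2 := le_hasSum h 0 (fun k _ => by positivity)
  simpa using h2

lemma step_log (n : ℕ) (hn : 1 ≤ n) :
    Real.log (n + 1) - Real.log n ≤
      2 / (2 * n + 1) + 1 / 24 * (1 / (n : ℝ) ^ 2 - 1 / ((n : ℝ) + 1) ^ 2) := by
  have hnr : (1 : ℝ) ≤ n := by exact_mod_cast hn
  have hn0 : (0 : ℝ) < n := by linarith
  have h := log_upper (1 / (2 * n + 1)) (by positivity) (by
    rw [div_lt_one (by positivity)]; linarith)
  have e1 : (1 : ℝ) + 1 / (2 * n + 1) = 2 * (n + 1) / (2 * n + 1) := by field_simp; ring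
  have e2 : (1 : ℝ) - 1 / (2 * n + 1) = 2 * n / (2 * n + 1) := by field_simp; ring
  have e3 : Real.log (1 + 1 / (2 * n + 1)) - Real.log (1 - 1 / (2 * n + 1))
      = Real.log (n + 1) - Real.log n := by
    rw [e1, e2, Real.log_div (by positivity) (by positivity),
      Real.log_div (by positivity) (by positivity), Real.log_mul (by norm_num) (by positivity),
      Real.log_mul (by norm_num) (by positivity)]
    ring
  rw [e3] at h
  refine h.trans ?_
  have e4 : 2 / 3 * (1 / (2 * (n : ℝ) + 1)) * (1 - (1 / (2 * (n : ℝ) + 1)) ^ 2)⁻¹ +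
      4 / 3 * (1 / (2 * (n : ℝ) + 1))
      = 2 / (2 * n + 1) + 1 / (6 * (n * (n + 1) * (2 * n + 1))) := by
    have h5 : (1 : ℝ) - (1 / (2 * n + 1)) ^ 2 = 4 * n * (n + 1) / (2 * n + 1) ^ 2 := by
      field_simp; ring
    rw [h5]
    field_simp
    ring
  rw [e4]
  have e5 : (1 : ℝ) / (n : ℝ) ^ 2 - 1 / ((n : ℝ) + 1) ^ 2 = (2 * n + 1) / (n ^ 2 * (n + 1) ^ 2) := by
    field_simp; ring
  rw [e5]
  have h6 : 1 / (6 * ((n : ℝ) * (n + 1) * (2 * n + 1))) ≤
      1 / 24 * ((2 * n + 1) / (n ^ 2 * (n + 1) ^ 2)) := by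
    rw [← sub_nonneg]
    have : 1 / 24 * ((2 * (n : ℝ) + 1) / (n ^ 2 * (n + 1) ^ 2)) - 1 / (6 * (n * (n + 1) * (2 * n + 1)))
        = 1 / (24 * (n ^ 2 * (n + 1) ^ 2 * (2 * n + 1))) := by
      field_simp; ring
    rw [this]
    positivity
  linarith

/-- the lower bound for the Pochhammer quotient -/
lemma K_ge (p : ℝ) (hp : 2 ≤ p) : ∀ n : ℕ, 1 ≤ n →
    Real.exp ((1 - 2 / p) * (Real.log n - 1 / 24 * (1 - 1 / (n : ℝ) ^ 2))) * (p - 1) ≤ K n p
  | 0, h => by omega
  | 1, _ => by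
    rw [K_one p hp]
    simp
  | n + 2, _ => by
    have ih := K_ge p hp (n + 1) (by omega)
    have hp0 : (0 : ℝ) < p := by linarith
    have hx0 : 0 < 1 / p := by positivity
    have hx1 : 1 / p ≤ 1 / 2 := one_div_le_one_div_of_le (by norm_num) hp
    have hδ0 : 0 ≤ 1 - 2 / p := by
      have : 2 / p = 2 * (1 / p) := by ring
      rw [this]; linarith
    have hδ1 : 1 - 2 / p < 1 := by
      have : 0 < 2 / p := by positivity
      linarith
    obtain ⟨m, hm⟩ : ∃ m : ℕ, m = n + 1 := ⟨_, rfl⟩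
    have hm1 : 1 ≤ m := by omega
    have hmr : (1 : ℝ) ≤ m := by exact_mod_cast hm1
    rw [← hm] at ih
    rw [show n + 2 = m + 1 by omega, K_succ]
    have hb := log_lower ((1 - 2 / p) / (2 * m + 1)) (by positivity) (by
      rw [div_lt_one (by positivity)]; linarith)
    have e1 : (1 : ℝ) + (1 - 2 / p) / (2 * m + 1) = 2 * (1 - 1 / p + m) / (2 * m + 1) := by
      field_simp; ring
    have e2 : (1 : ℝ) - (1 - 2 / p) / (2 * m + 1) = 2 * (1 / p + m) / (2 * m + 1) := by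
      field_simp; ring
    have hq1 : 0 < 1 - 1 / p + (m : ℝ) := by linarith
    have hq2 : 0 < 1 / p + (m : ℝ) := by linarith
    have e3 : Real.log (1 + (1 - 2 / p) / (2 * m + 1)) - Real.log (1 - (1 - 2 / p) / (2 * m + 1))
        = Real.log ((1 - 1 / p + m) / (1 / p + m)) := by
      rw [e1, e2, Real.log_div (by positivity) (by positivity),
        Real.log_div (by positivity) (by positivity), Real.log_mul (by norm_num) (by positivity),
        Real.log_mul (by norm_num) (by positivity), Real.log_div (by positivity) (by positivity)]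
      ring
    rw [e3] at hb
    have hs := step_log m hm1
    have key : (1 - 2 / p) * (Real.log ((m + 1 : ℕ) : ℝ) - 1 / 24 * (1 - 1 / (((m + 1 : ℕ) : ℝ)) ^ 2))
        ≤ (1 - 2 / p) * (Real.log m - 1 / 24 * (1 - 1 / (m : ℝ) ^ 2)) +
          Real.log ((1 - 1 / p + m) / (1 / p + m)) := by
      refine le_trans ?_ (add_le_add_right hb _)
      have e4 : 2 * ((1 - 2 / p) / (2 * (m : ℝ) + 1)) = (1 - 2 / p) * (2 / (2 * m + 1)) := by ring
      rw [e4, ← mul_add]
      refine mul_le_mul_of_nonneg_left ?_ hδ0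
      push_cast
      linarith
    have hr : 0 < (1 - 1 / p + (m : ℝ)) / (1 / p + m) := by positivity
    calc Real.exp ((1 - 2 / p) * (Real.log ((m + 1 : ℕ) : ℝ) - 1 / 24 * (1 - 1 / (((m + 1 : ℕ) : ℝ)) ^ 2)))
          * (p - 1)
        ≤ Real.exp ((1 - 2 / p) * (Real.log m - 1 / 24 * (1 - 1 / (m : ℝ) ^ 2)) +
          Real.log ((1 - 1 / p + m) / (1 / p + m))) * (p - 1) := by
          refine mul_le_mul_of_nonneg_right (Real.exp_le_exp.2 key) (by linarith)
      _ = Real.exp ((1 - 2 / p) * (Real.log m - 1 / 24 * (1 - 1 / (m : ℝ) ^ 2))) * (p - 1) *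
          ((1 - 1 / p + m) / (1 / p + m)) := by
          rw [Real.exp_add, Real.exp_log hr]; ring
      _ ≤ K m p * ((1 - 1 / p + m) / (1 / p + m)) := mul_le_mul_of_nonneg_right ih hr.le

/-- the lower bound in closed form -/
lemma K_ge' (p : ℝ) (hp : 2 ≤ p) (n : ℕ) (hn : 1 ≤ n) :
    Real.exp (-(1 - 2 / p) / 24) * ((n : ℝ) ^ (1 - 2 / p) * (p - 1)) ≤ K n p := by
  have hn0 : (0 : ℝ) < n := by exact_mod_cast hn
  have hδ0 : 0 ≤ 1 - 2 / p := by
    rw [sub_nonneg, div_le_one (by linarith)]; exact hp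
  refine le_trans ?_ (K_ge p hp n hn)
  rw [Real.rpow_def_of_pos hn0, ← mul_assoc, ← Real.exp_add]
  refine mul_le_mul_of_nonneg_right (Real.exp_le_exp.2 ?_) (by linarith)
  have h1 : 0 ≤ 1 / (n : ℝ) ^ 2 := by positivity
  have h2 : 0 ≤ (1 - 2 / p) * (1 / (n : ℝ) ^ 2) := by positivity
  nlinarith

lemma const_num : (0.958 : ℝ) ≤ Real.exp (-1 / 24) := by
  have h := Real.add_one_le_exp (-1 / 24 : ℝ)
  have h2 : Real.exp (-1 / 24) = Real.exp (-1 / 48) ^ 2 := by
    rw [← Real.exp_nat_mul]; norm_num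
  have h3 := Real.add_one_le_exp (-1 / 48 : ℝ)
  rw [h2]
  have h4 : (0.979 : ℝ) ≤ Real.exp (-1 / 48) := le_trans (by norm_num) h3
  nlinarith

end Pool.Agent.Q168.BT
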