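import Mathlib

set_option autoImplicit false
open Filter Topology

namespace Pool.Agent.Q168.BT

/-- the Pochhammer quotient -/
noncomputable def K (n : ℕ) (p : ℝ) : ℝ :=
  (ascPochhammer ℝ n).eval (1 - 1 / p) / (ascPochhammer ℝ n).eval (1 / p)

lemma K_zero (p : ℝ) : K 0 p = 1 := by simp [K]

lemma K_succ (n : ℕ) (p : ℝ) : K (n + 1) p = K n p * ((1 - 1 / p + n) / (1 / p + n)) := by
  unfold K
  rw [ascPochhammer_succ_eval, ascPochhammer_succ_eval, mul_div_mul_comm]

lemma K_ge_one (p : ℝ) (hp : 2 ≤ p) : ∀ n : ℕ, 1 ≤ K n p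
  | 0 => by rw [K_zero]
  | n + 1 => by
    rw [K_succ]
    have h := K_ge_one p hp n
    have hp0 : 0 < 1 / p := by positivity
    have hp1 : 1 / p ≤ 1 / 2 := one_div_le_one_div_of_le (by norm_num) hp
    have h2 : 1 ≤ (1 - 1 / p + n) / (1 / p + n) := by
      rw [one_le_div (by positivity)]
      linarith
    nlinarith

lemma K_mono (p : ℝ) (hp : 2 ≤ p) (n : ℕ) : K n p ≤ K (n + 1) p := by
  rw [K_succ]
  have h := K_ge_one p hp n
  have hp0 : 0 < 1 / p := by positivity
  have hp1 : 1 / p ≤ 1 / 2 := one_div_le_one_div_of_le (by norm_num) hp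
  have h2 : 1 ≤ (1 - 1 / p + n) / (1 / p + n) := by
    rw [one_le_div (by positivity)]
    linarith
  nlinarith

lemma K_monotone (p : ℝ) (hp : 2 ≤ p) : Monotone fun n => K n p :=
  monotone_nat_of_le_succ (K_mono p hp)

lemma K_one (p : ℝ) (hp : 2 ≤ p) : K 1 p = p - 1 := by
  have hp0 : p ≠ 0 := by linarith
  unfold K
  rw [ascPochhammer_one, Polynomial.eval_X, Polynomial.eval_X]
  field_simp

lemma K_lower (p : ℝ) (hp : 2 ≤ p) : ∀ n : ℕ,
    1 + (1 - 2 / p) * ∑ j ∈ Finset.range n, 1 / ((j : ℝ) + 1) ≤ K n p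
  | 0 => by simp [K_zero]
  | n + 1 => by
    have ih := K_lower p hp n
    have h1 := K_ge_one p hp n
    have hp0 : 0 < 1 / p := by positivity
    have hp1 : 1 / p ≤ 1 / 2 := one_div_le_one_div_of_le (by norm_num) hp
    have hδ : 0 ≤ 1 - 2 / p := by
      have : 2 / p = 2 * (1 / p) := by ring
      rw [this]; linarith
    have hn0 : (0 : ℝ) ≤ n := Nat.cast_nonneg n
    rw [Finset.sum_range_succ, K_succ]
    have h2 : (1 - 1 / p + n) / (1 / p + n) = 1 + (1 - 2 / p) / (1 / p + n) := by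
      have : (1 / p + n) ≠ 0 := by positivity
      rw [eq_comm, ← sub_eq_zero]
      field_simp
      ring
    have h3 : (1 - 2 / p) * (1 / ((n : ℝ) + 1)) ≤ (1 - 2 / p) / (1 / p + n) := by
      rw [mul_one_div]
      apply div_le_div_of_nonneg_left hδ (by positivity)
      linarith
    rw [h2]
    have h4 : 0 ≤ (1 - 2 / p) / (1 / p + n) := by positivity
    nlinarith

lemma K_tendsto (p : ℝ) (hp : 2 < p) : Tendsto (fun n => K n p) atTop atTop := by
  have hδ : 0 < 1 - 2 / p := by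
    rw [sub_pos, div_lt_one (by linarith)]; exact hp
  have h := Real.tendsto_sum_range_one_div_nat_succ_atTop
  have h2 : Tendsto (fun n : ℕ => 1 + (1 - 2 / p) * ∑ j ∈ Finset.range n, 1 / ((j : ℝ) + 1))
      atTop atTop := tendsto_atTop_add_const_left _ _ (h.const_mul_atTop hδ)
  exact tendsto_atTop_mono (K_lower p hp.le) h2

end Pool.Agent.Q168.BT
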