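import Pool.Agent.Q168.BT.Refl
import Pool.Agent.Q168.BT.Poch

set_option autoImplicit false
open MeasureTheory Filter Topology
open scoped FourierTransform SchwartzMap ENNReal

namespace Pool.Agent.Q168.BT

open Pool.Agent.TH55.PowA

/-- the bounds for the powers -/
noncomputable def Dp (p : ℝ) (m : ℕ) : ℝ := if m = 0 then 1 else Real.exp 1 / 2 * (m + 1) * (p - 1)

lemma Dp_nonneg (p : ℝ) (hp : 2 ≤ p) (m : ℕ) : 0 ≤ Dp p m := by
  unfold Dp
  split_ifs
  · norm_num
  · have : 0 ≤ p - 1 := by linarith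
    positivity

lemma sum_Dp (p : ℝ) (n : ℕ) : ∀ d : ℕ, d ≤ n →
    ∑ k ∈ Finset.Icc (n - d) (n + d), Dp p (if n ≤ k then k - n else n - k)
      = 1 + Real.exp 1 * (d * (d + 3) / 2) * (p - 1)
  | 0, _ => by simp [Dp]
  | d + 1, hd => by
    have ih := sum_Dp p n d (by omega)
    rw [show n + (d + 1) = n + d + 1 by ring, Finset.sum_Icc_succ_top (by omega)]
    have h1 : Finset.Icc (n - (d + 1)) (n + d) = insert (n - (d + 1)) (Finset.Icc (n - d) (n + d)) := by
      ext x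
      simp only [Finset.mem_Icc, Finset.mem_insert]
      omega
    rw [h1, Finset.sum_insert (by simp only [Finset.mem_Icc]; omega), ih]
    rw [if_neg (by omega), if_pos (by omega)]
    have e1 : n - (n - (d + 1)) = d + 1 := by omega
    have e2 : n + d + 1 - n = d + 1 := by omega
    rw [e1, e2]
    unfold Dp
    rw [if_neg (by omega)]
    push_cast
    ring

/-- the bound for functions with angular spectrum near `n` -/
lemma near_bound (p : ℝ) (hp : 2 ≤ p)
    (hT : ∀ m : ℕ, 1 ≤ m → ∀ f : 𝓢(ℂ, ℂ), eLpNorm (T (fun ξ => bs ξ ^ m) f) (ENNReal.ofReal p) volume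
      ≤ ENNReal.ofReal (Cn m * (p - 1)) * eLpNorm f (ENNReal.ofReal p) volume)
    (n d : ℕ) (hd : d ≤ n) (g : ℕ → 𝓢(ℂ, ℂ)) (hg : ∀ j, Cls j (g j)) :
    eLpNorm (T (fun ξ => bs ξ ^ n) (∑ j ∈ Finset.Icc (n - d) (n + d), g j)) (ENNReal.ofReal p) volume
      ≤ ENNReal.ofReal (1 + Real.exp 1 * (d * (d + 3) / 2) * (p - 1)) *
        eLpNorm (∑ j ∈ Finset.Icc (n - d) (n + d), g j : 𝓢(ℂ, ℂ)) (ENNReal.ofReal p) volume := by
  have hP : 1 ≤ ENNReal.ofReal p := by
    rw [← ENNReal.ofReal_one]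
    exact ENNReal.ofReal_le_ofReal (by linarith)
  have h := spec_bound hP (D := fun m => ENNReal.ofReal (Dp p m)) (by simp [Dp])
    (fun m hm f => (hT m hm f).trans (by
      have h1 : Cn m * (p - 1) ≤ Dp p m := by
        unfold Dp
        rw [if_neg (by omega)]
        have := Cn_le m hm
        have hp1 : 0 ≤ p - 1 := by linarith
        exact mul_le_mul_of_nonneg_right this hp1
      gcongr)) n (Finset.Icc (n - d) (n + d)) (fun j hj => by
        rw [Finset.mem_Icc] at hj; omega) g (fun j _ => hg j)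
  refine h.trans (le_of_eq ?_)
  congr 1
  rw [← ENNReal.ofReal_sum_of_nonneg (fun _ _ => Dp_nonneg p hp _), sum_Dp p n d hd]

lemma up_bound {P : ℝ≥0∞} {D : ℝ≥0∞} (n m : ℕ) {f : 𝓢(ℂ, ℂ)} (hf : Cls (n + m) f)
    (h : eLpNorm (T (fun ξ => bs ξ ^ m) f) P volume ≤ D * eLpNorm f P volume) :
    eLpNorm (T (fun ξ => bs ξ ^ n) f) P volume ≤ D * eLpNorm f P volume := by
  have e : T (fun ξ => bs ξ ^ n) f = fun z => T (fun ξ => bs ξ ^ m) f ((starRingEnd ℂ) z) :=
    funext (refl_up n m hf)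
  rw [e, eLp_conj _ (T_cont (adm_pow m) f).aestronglyMeasurable]
  exact h

end Pool.Agent.Q168.BT
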