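import Pool.Agent.TH55.PowD

set_option autoImplicit false
open MeasureTheory Filter Topology
open scoped FourierTransform SchwartzMap ENNReal

namespace Pool.Agent.Q168.BT

open Pool.Agent.TH55.PowA

/-- angular class `k` -/
def Cls (k : ℕ) (f : 𝓢(ℂ, ℂ)) : Prop := ∀ a z : ℂ, ‖a‖ = 1 → f (a * z) = a ^ k * f z

lemma sm_rot (a x ξ : ℂ) (ha : ‖a‖ = 1) : sm (a * x) (a * ξ) = sm x ξ := by
  have h : a.re ^ 2 + a.im ^ 2 = 1 := by
    have := Complex.sq_norm a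
    rw [ha, Complex.normSq_apply] at this
    nlinarith
  simp only [sm, Complex.mul_re, Complex.mul_im]
  linear_combination (x.re * ξ.re + x.im * ξ.im) * h

lemma int_rot (a : ℂ) (ha : ‖a‖ = 1) (g : ℂ → ℂ) : ∫ x : ℂ, g (a * x) = ∫ x : ℂ, g x := by
  obtain ⟨c, hc⟩ : ∃ c : Circle, (c : ℂ) = a := ⟨⟨a, mem_sphere_zero_iff_norm.2 ha⟩, rfl⟩
  have h1 : ∀ x, rotation c x = a * x := fun x => by rw [rotation_apply, hc]
  have h2 := ((rotation c).measurePreserving).integral_comp' (f := (rotation c).toMeasurableEquiv) g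
  rw [← h2]
  refine integral_congr_ae (Eventually.of_forall fun x => ?_)
  show g (a * x) = g (rotation c x)
  rw [h1]

lemma int_conj (g : ℂ → ℂ) : ∫ x : ℂ, g ((starRingEnd ℂ) x) = ∫ x : ℂ, g x := by
  have h2 := (Complex.conjLIE.measurePreserving).integral_comp'
    (f := Complex.conjLIE.toMeasurableEquiv) g
  exact h2

lemma Ft_cls {k : ℕ} {f : 𝓢(ℂ, ℂ)} (hf : Cls k f) (a ξ : ℂ) (ha : ‖a‖ = 1) :
    Ft f (a * ξ) = a ^ k * Ft f ξ := by
  unfold Ft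
  rw [← int_rot a ha, ← integral_const_mul]
  refine integral_congr_ae (Eventually.of_forall fun x => ?_)
  simp only [sm_rot a x ξ ha, hf a x ha]
  ring

lemma conj_eq (ξ : ℂ) (h : ξ ≠ 0) : (starRingEnd ℂ) ξ = bs ξ * ξ := by
  unfold bs
  field_simp

lemma Ft_conj {k : ℕ} {f : 𝓢(ℂ, ℂ)} (hf : Cls k f) (ξ : ℂ) (h : ξ ≠ 0) :
    Ft f ((starRingEnd ℂ) ξ) = bs ξ ^ k * Ft f ξ := by
  conv_lhs => rw [conj_eq ξ h]
  exact Ft_cls hf _ _ (bs_norm ξ h)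

lemma bs_conj (ξ : ℂ) (h : ξ ≠ 0) : bs ((starRingEnd ℂ) ξ) * bs ξ = 1 := by
  unfold bs
  have h' : (starRingEnd ℂ) ξ ≠ 0 := by simpa using h
  rw [Complex.conj_conj]
  field_simp

lemma sm_conj (z ξ : ℂ) : sm z ((starRingEnd ℂ) ξ) = sm ((starRingEnd ℂ) z) ξ := by
  simp [sm]

/-- **the reflection principle**, upper classes -/
lemma refl_up (n m : ℕ) {f : 𝓢(ℂ, ℂ)} (hf : Cls (n + m) f) (z : ℂ) :
    T (fun ξ => bs ξ ^ n) f z = T (fun ξ => bs ξ ^ m) f ((starRingEnd ℂ) z) := by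
  unfold T
  rw [← int_conj (fun ξ => Complex.exp (2 * (Real.pi : ℂ) * Complex.I *
    ((sm ((starRingEnd ℂ) z) ξ : ℝ) : ℂ)) * (bs ξ ^ m * Ft f ξ))]
  refine integral_congr_ae ?_
  filter_upwards [ae_ne] with ξ hξ
  rw [← sm_conj, Complex.conj_conj, Ft_conj hf ξ hξ]
  congr 1
  have h := bs_conj ξ hξ
  calc bs ξ ^ n * Ft f ξ = (bs ((starRingEnd ℂ) ξ) * bs ξ) ^ m * (bs ξ ^ n * Ft f ξ) := by
        rw [h, one_pow, one_mul]
    _ = _ := by rw [mul_pow, pow_add]; ring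

/-- reflected function -/
noncomputable def rf (f : 𝓢(ℂ, ℂ)) : 𝓢(ℂ, ℂ) :=
  SchwartzMap.compCLMOfContinuousLinearEquiv ℂ (Complex.conjCLE) f

lemma rf_apply (f : 𝓢(ℂ, ℂ)) (x : ℂ) : rf f x = f ((starRingEnd ℂ) x) := rfl

lemma Ft_rf (f : 𝓢(ℂ, ℂ)) (ξ : ℂ) : Ft (rf f) ξ = Ft f ((starRingEnd ℂ) ξ) := by
  unfold Ft
  rw [← int_conj]
  refine integral_congr_ae (Eventually.of_forall fun x => ?_)
  simp only [rf_apply, Complex.conj_conj]
  rw [sm_conj]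

/-- **the reflection principle**, lower classes -/
lemma refl_down (m l : ℕ) {f : 𝓢(ℂ, ℂ)} (hf : Cls l f) (z : ℂ) :
    T (fun ξ => bs ξ ^ (m + l)) f z = T (fun ξ => bs ξ ^ m) (rf f) z := by
  unfold T
  refine integral_congr_ae ?_
  filter_upwards [ae_ne] with ξ hξ
  rw [Ft_rf, Ft_conj hf ξ hξ]
  ring

/-- Fourier inversion -/
lemma T_zero (f : 𝓢(ℂ, ℂ)) (z : ℂ) : T (fun ξ => bs ξ ^ 0) f z = f z := by
  have h1 : (𝓕⁻ (𝓕 f : 𝓢(ℂ, ℂ)) : 𝓢(ℂ, ℂ)) = f := FourierTransform.fourierInv_fourier_eq f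
  have h2 : f z = (𝓕⁻ (𝓕 f : 𝓢(ℂ, ℂ)) : 𝓢(ℂ, ℂ)) z := by rw [h1]
  rw [h2, SchwartzMap.fourierInv_coe, Real.fourierInv_eq']
  unfold T
  refine integral_congr_ae (Eventually.of_forall fun ξ => ?_)
  simp only [pow_zero, one_mul, Ft_fun, smul_eq_mul]
  have : (inner ℝ ξ z : ℝ) = sm z ξ := by
    rw [Complex.inner]
    simp [sm]
    try ring
  rw [this]
  congr 2
  push_cast
  ring

lemma eLp_conj {P : ℝ≥0∞} (g : ℂ → ℂ) (hg : AEStronglyMeasurable g volume) :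
    eLpNorm (fun z => g ((starRingEnd ℂ) z)) P volume = eLpNorm g P volume :=
  eLpNorm_comp_measurePreserving hg Complex.conjLIE.measurePreserving

lemma eLp_rot {P : ℝ≥0∞} (a : ℂ) (ha : ‖a‖ = 1) (g : ℂ → ℂ) (hg : AEStronglyMeasurable g volume) :
    eLpNorm (fun z => g (a * z)) P volume = eLpNorm g P volume := by
  obtain ⟨c, hc⟩ : ∃ c : Circle, (c : ℂ) = a := ⟨⟨a, mem_sphere_zero_iff_norm.2 ha⟩, rfl⟩
  have h := eLpNorm_comp_measurePreserving (p := P) hg (rotation c).measurePreserving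
  rw [← h]
  have : (fun z => g (a * z)) = g ∘ (rotation c) := by
    funext z
    rw [Function.comp_apply, rotation_apply, hc]
  rw [this]

/-- `T ^ n` on the class `n` is the reflection -/
lemma refl_mid (n : ℕ) {f : 𝓢(ℂ, ℂ)} (hf : Cls n f) (z : ℂ) :
    T (fun ξ => bs ξ ^ n) f z = f ((starRingEnd ℂ) z) := by
  rw [refl_up n 0 hf z, T_zero]

lemma adm_pow (n : ℕ) : Adm (fun ξ => bs ξ ^ n) :=
  ⟨bs_meas.pow_const n, fun ξ => by
    rw [norm_pow]; exact pow_le_one₀ (norm_nonneg _) (bs_norm_le _)⟩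

/-- the bound on one class -/
lemma cls_bound {P : ℝ≥0∞} {D : ℕ → ℝ≥0∞} (hD0 : 1 ≤ D 0)
    (hD : ∀ m : ℕ, 1 ≤ m → ∀ f : 𝓢(ℂ, ℂ),
      eLpNorm (T (fun ξ => bs ξ ^ m) f) P volume ≤ D m * eLpNorm f P volume)
    (n k : ℕ) {f : 𝓢(ℂ, ℂ)} (hf : Cls k f) :
    (k ≤ 2 * n → eLpNorm (T (fun ξ => bs ξ ^ n) f) P volume ≤
      D (if n ≤ k then k - n else n - k) * eLpNorm f P volume) := by
  intro _
  have hD' : ∀ m : ℕ, ∀ f : 𝓢(ℂ, ℂ),
      eLpNorm (T (fun ξ => bs ξ ^ m) f) P volume ≤ D m * eLpNorm f P volume := by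
    intro m f
    rcases Nat.eq_zero_or_pos m with h | h
    · subst h
      have : T (fun ξ => bs ξ ^ 0) f = f := funext (T_zero f)
      rw [this]
      calc eLpNorm f P volume = 1 * eLpNorm f P volume := (one_mul _).symm
        _ ≤ _ := by gcongr
    · exact hD m h f
  split_ifs with h
  · obtain ⟨m, rfl⟩ : ∃ m, k = n + m := ⟨k - n, by omega⟩
    have e : T (fun ξ => bs ξ ^ n) f = fun z => T (fun ξ => bs ξ ^ m) f ((starRingEnd ℂ) z) :=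
      funext (refl_up n m hf)
    rw [e, eLp_conj _ (T_cont (adm_pow m) f).aestronglyMeasurable, Nat.add_sub_cancel_left]
    exact hD' m f
  · obtain ⟨m, rfl⟩ : ∃ m, n = m + k := ⟨n - k, by omega⟩
    have e : T (fun ξ => bs ξ ^ (m + k)) f = T (fun ξ => bs ξ ^ m) (rf f) :=
      funext (refl_down m k hf)
    rw [e, Nat.add_sub_cancel]
    refine (hD' m (rf f)).trans (le_of_eq ?_)
    have : (⇑(rf f) : ℂ → ℂ) = fun z => f ((starRingEnd ℂ) z) := funext (rf_apply f)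
    rw [this, eLp_conj _ f.continuous.aestronglyMeasurable]

/-- angular projections are contractions -/
lemma proj_le {P : ℝ≥0∞} (hP : 1 ≤ P) (S : Finset ℕ) (g : ℕ → 𝓢(ℂ, ℂ)) (hg : ∀ j ∈ S, Cls j (g j))
    (k : ℕ) (hk : k ∈ S) :
    eLpNorm (g k) P volume ≤ eLpNorm (fun z => ∑ j ∈ S, g j z) P volume := by
  obtain ⟨N, hN⟩ : ∃ N : ℕ, ∀ j ∈ S, j < N := ⟨S.sup id + 1, fun j hj =>
    Nat.lt_succ_of_le (Finset.le_sup (f := id) hj)⟩
  have hkN : k < N := hN k hk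
  have hN0 : N ≠ 0 := by omega
  have hNc : (N : ℂ) ≠ 0 := by exact_mod_cast hN0
  obtain ⟨ω, hω⟩ : ∃ ω : ℂ, ω = Complex.exp (2 * Real.pi * Complex.I / N) := ⟨_, rfl⟩
  have hpr : IsPrimitiveRoot ω N := by rw [hω]; exact Complex.isPrimitiveRoot_exp N hN0
  have hω1 : ‖ω‖ = 1 := hpr.norm'_eq_one hN0
  have hωj : ∀ l : ℕ, ‖ω ^ l‖ = 1 := fun l => by rw [norm_pow, hω1, one_pow]
  have e : (⇑(g k) : ℂ → ℂ) = ∑ l ∈ Finset.range N,
      (((N : ℂ)⁻¹ * (ω ^ l) ^ (N - k)) • fun z => ∑ j ∈ S, g j (ω ^ l * z)) := by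
    funext z
    rw [Finset.sum_apply]
    simp only [Pi.smul_apply, smul_eq_mul]
    have h1 : ∀ l ∈ Finset.range N, ((N : ℂ)⁻¹ * (ω ^ l) ^ (N - k)) * ∑ j ∈ S, g j (ω ^ l * z)
        = ∑ j ∈ S, (N : ℂ)⁻¹ * g j z * (ω ^ (N - k + j)) ^ l := by
      intro l _
      rw [Finset.mul_sum]
      refine Finset.sum_congr rfl fun j hj => ?_
      rw [hg j hj _ z (hωj l), ← pow_mul, ← pow_mul, ← pow_mul, add_mul, pow_add, mul_comm l,
        mul_comm l]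
      ring
    rw [Finset.sum_congr rfl h1, Finset.sum_comm]
    simp only [← Finset.mul_sum]
    rw [Finset.sum_eq_single k]
    · rw [Nat.sub_add_cancel hkN.le, root_sum hpr, if_pos dvd_rfl]
      field_simp
    · intro j hj hjk
      rw [root_sum hpr, if_neg, mul_zero]
      intro hd
      have hjN := hN j hj
      obtain ⟨q, hq⟩ := hd
      rcases Nat.lt_or_ge q 1 with h | h
      · interval_cases q
        omega
      · rcases Nat.lt_or_ge q 2 with h' | h'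
        · interval_cases q
          omega
        · have : N * 2 ≤ N * q := Nat.mul_le_mul_left N h'
          omega
    · intro h
      exact absurd hk h
  have hc : Continuous fun z => ∑ j ∈ S, g j z :=
    continuous_finsetSum _ fun j _ => (g j).continuous
  have hcl : ∀ l : ℕ, Continuous fun z => ∑ j ∈ S, g j (ω ^ l * z) := fun l =>
    hc.comp (continuous_const.mul continuous_id)
  rw [e]
  refine (eLpNorm_sum_le (fun l _ => (hcl l).aestronglyMeasurable.const_smul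
    ((N : ℂ)⁻¹ * (ω ^ l) ^ (N - k))) hP).trans ?_
  have h2 : ∀ l ∈ Finset.range N, eLpNorm (((N : ℂ)⁻¹ * (ω ^ l) ^ (N - k)) •
      fun z => ∑ j ∈ S, g j (ω ^ l * z)) P volume
      = (N : ℝ≥0∞)⁻¹ * eLpNorm (fun z => ∑ j ∈ S, g j z) P volume := by
    intro l _
    rw [eLpNorm_const_smul, eLp_rot (ω ^ l) (hωj l) (fun z => ∑ j ∈ S, g j z)
      hc.aestronglyMeasurable]
    congr 1
    rw [enorm_mul, enorm_pow, ← ofReal_norm (ω ^ l), hωj l, ENNReal.ofReal_one, one_pow, mul_one,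
      ← ofReal_norm, norm_inv, RCLike.norm_natCast, ENNReal.ofReal_inv_of_pos (by positivity),
      ENNReal.ofReal_natCast]
  rw [Finset.sum_congr rfl h2, Finset.sum_const, Finset.card_range, nsmul_eq_mul, ← mul_assoc,
    ENNReal.mul_inv_cancel (by exact_mod_cast hN0) (ENNReal.natCast_ne_top N), one_mul]

lemma Ft_sum (S : Finset ℕ) (g : ℕ → 𝓢(ℂ, ℂ)) (ξ : ℂ) :
    Ft (∑ j ∈ S, g j) ξ = ∑ j ∈ S, Ft (g j) ξ := by
  rw [Ft_eq]
  simp only [Ft_eq]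
  have : (𝓕 (∑ j ∈ S, g j) : 𝓢(ℂ, ℂ)) = ∑ j ∈ S, (𝓕 (g j) : 𝓢(ℂ, ℂ)) :=
    map_sum (FourierTransform.fourierCLM ℂ 𝓢(ℂ, ℂ)) g S
  rw [this]
  simp

lemma T_fsum (m : ℂ → ℂ) (hm : Adm m) (S : Finset ℕ) (g : ℕ → 𝓢(ℂ, ℂ)) (z : ℂ) :
    T m (∑ j ∈ S, g j) z = ∑ j ∈ S, T m (g j) z := by
  unfold T
  rw [← integral_finsetSum S (fun j _ => T_integrand_int hm (g j) z)]
  refine integral_congr_ae (Eventually.of_forall fun ξ => ?_)
  simp only [Ft_sum, Finset.mul_sum]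

/-- the bound for finitely many classes -/
lemma spec_bound {P : ℝ≥0∞} (hP : 1 ≤ P) {D : ℕ → ℝ≥0∞} (hD0 : 1 ≤ D 0)
    (hD : ∀ m : ℕ, 1 ≤ m → ∀ f : 𝓢(ℂ, ℂ),
      eLpNorm (T (fun ξ => bs ξ ^ m) f) P volume ≤ D m * eLpNorm f P volume)
    (n : ℕ) (S : Finset ℕ) (hS : ∀ j ∈ S, j ≤ 2 * n) (g : ℕ → 𝓢(ℂ, ℂ)) (hg : ∀ j ∈ S, Cls j (g j)) :
    eLpNorm (T (fun ξ => bs ξ ^ n) (∑ j ∈ S, g j)) P volume ≤
      (∑ k ∈ S, D (if n ≤ k then k - n else n - k)) * eLpNorm (∑ j ∈ S, g j : 𝓢(ℂ, ℂ)) P volume := by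
  have e : T (fun ξ => bs ξ ^ n) (∑ j ∈ S, g j) = ∑ j ∈ S, T (fun ξ => bs ξ ^ n) (g j) := by
    funext z
    rw [T_fsum _ (adm_pow n), Finset.sum_apply]
  have e2 : (⇑(∑ j ∈ S, g j : 𝓢(ℂ, ℂ)) : ℂ → ℂ) = fun z => ∑ j ∈ S, g j z := by
    funext z
    simp
  rw [e, e2, Finset.sum_mul]
  refine (eLpNorm_sum_le (fun j _ => (T_cont (adm_pow n) (g j)).aestronglyMeasurable) hP).trans ?_
  refine Finset.sum_le_sum fun j hj => ?_
  refine (cls_bound hD0 hD n j (hg j hj) (hS j hj)).trans ?_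
  gcongr
  exact proj_le hP S g hg j hj

end Pool.Agent.Q168.BT
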