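import Pool.Agent.Q168.BT.Refl
import Pool.Agent.TH55.PowE

set_option autoImplicit false
open MeasureTheory Filter Topology
open scoped FourierTransform SchwartzMap ENNReal

namespace Pool.Agent.Q168.BT

open Pool.Agent.TH55.PowA

/-- multiplication by a nonzero complex number -/
noncomputable def mulE (a : ℂ) (ha : a ≠ 0) : ℂ ≃L[ℝ] ℂ :=
  ContinuousLinearEquiv.equivOfInverse ((ContinuousLinearMap.mul ℝ ℂ) a)
    ((ContinuousLinearMap.mul ℝ ℂ) a⁻¹) (fun z => by simp [ha]) (fun z => by simp [ha])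

lemma mulE_apply (a : ℂ) (ha : a ≠ 0) (z : ℂ) : mulE a ha z = a * z := rfl

/-- `f (a z)` -/
noncomputable def dil (a : ℂ) (ha : a ≠ 0) (f : 𝓢(ℂ, ℂ)) : 𝓢(ℂ, ℂ) :=
  SchwartzMap.compCLMOfContinuousLinearEquiv ℂ (mulE a ha) f

lemma dil_apply (a : ℂ) (ha : a ≠ 0) (f : 𝓢(ℂ, ℂ)) (z : ℂ) : dil a ha f z = f (a * z) := rfl

lemma int_mul (a : ℂ) (ha : a ≠ 0) (g : ℂ → ℂ) :
    ∫ x : ℂ, g (a * x) = ((‖a‖ ^ 2)⁻¹ : ℝ) • ∫ x : ℂ, g x := by
  have hn : ‖a‖ ≠ 0 := norm_ne_zero_iff.2 ha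
  have h1 : ‖a / (‖a‖ : ℂ)‖ = 1 := by
    rw [norm_div, Complex.norm_real, norm_norm, div_self hn]
  have h2 := int_rot (a / (‖a‖ : ℂ)) h1 (fun y => g (‖a‖ • y))
  have h3 := Measure.integral_comp_smul (volume : Measure ℂ) g ‖a‖
  rw [Complex.finrank_real_complex, abs_of_nonneg (by positivity)] at h3
  rw [← h3, ← h2]
  refine integral_congr_ae (Eventually.of_forall fun x => ?_)
  simp only
  congr 1
  rw [Complex.real_smul]
  have : (‖a‖ : ℂ) ≠ 0 := by exact_mod_cast hn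
  field_simp

lemma sm_mul (a z ξ : ℂ) : sm z ((starRingEnd ℂ) a * ξ) = sm (a * z) ξ := by
  simp only [sm, Complex.mul_re, Complex.mul_im, Complex.conj_re, Complex.conj_im]
  ring

lemma bs_mul (a ξ : ℂ) (ha : a ≠ 0) : bs ((starRingEnd ℂ) a * ξ) = (a / (starRingEnd ℂ) a) * bs ξ := by
  unfold bs
  rw [map_mul, Complex.conj_conj]
  have : (starRingEnd ℂ) a ≠ 0 := by simpa using ha
  by_cases h : ξ = 0
  · simp [h]
  · field_simp

lemma Ft_dil (a : ℂ) (ha : a ≠ 0) (f : 𝓢(ℂ, ℂ)) (ξ : ℂ) :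
    Ft (dil a ha f) ((starRingEnd ℂ) a * ξ) = ((‖a‖ ^ 2)⁻¹ : ℝ) • Ft f ξ := by
  unfold Ft
  rw [← int_mul a ha]
  refine integral_congr_ae (Eventually.of_forall fun x => ?_)
  simp only [dil_apply]
  rw [sm_mul a x ξ]

/-- covariance under rotations and dilations -/
lemma T_dil (n : ℕ) (a : ℂ) (ha : a ≠ 0) (f : 𝓢(ℂ, ℂ)) (z : ℂ) :
    T (fun ξ => bs ξ ^ n) (dil a ha f) z
      = (a / (starRingEnd ℂ) a) ^ n * T (fun ξ => bs ξ ^ n) f (a * z) := by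
  have hc : (starRingEnd ℂ) a ≠ 0 := by simpa using ha
  have hn : ‖a‖ ≠ 0 := norm_ne_zero_iff.2 ha
  have h1 := int_mul ((starRingEnd ℂ) a) hc (fun ξ => Complex.exp (2 * (Real.pi : ℂ) * Complex.I *
    ((sm z ξ : ℝ) : ℂ)) * (bs ξ ^ n * Ft (dil a ha f) ξ))
  simp only [RCLike.norm_conj] at h1
  have h2 : ∫ x : ℂ, (Complex.exp (2 * (Real.pi : ℂ) * Complex.I *
    ((sm z x : ℝ) : ℂ)) * (bs x ^ n * Ft (dil a ha f) x)) = (‖a‖ ^ 2 : ℝ) •
    ∫ x : ℂ, Complex.exp (2 * (Real.pi : ℂ) * Complex.I *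
      ((sm z ((starRingEnd ℂ) a * x) : ℝ) : ℂ)) * (bs ((starRingEnd ℂ) a * x) ^ n *
        Ft (dil a ha f) ((starRingEnd ℂ) a * x)) := by
    rw [h1, smul_smul, mul_inv_cancel₀ (by positivity), one_smul]
  unfold T
  rw [h2, ← integral_smul, ← integral_const_mul]
  refine integral_congr_ae (Eventually.of_forall fun x => ?_)
  simp only [sm_mul, bs_mul a x ha, Ft_dil, Complex.real_smul]
  push_cast
  have : (‖a‖ : ℂ) ≠ 0 := by exact_mod_cast hn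
  rw [mul_pow]
  generalize a / (starRingEnd ℂ) a = u
  field_simp

/-- translate -/
noncomputable def tr (b : ℂ) (f : 𝓢(ℂ, ℂ)) : 𝓢(ℂ, ℂ) := f.compSubConstCLM ℂ b

lemma tr_apply (b : ℂ) (f : 𝓢(ℂ, ℂ)) (z : ℂ) : tr b f z = f (z - b) := rfl

lemma sm_add (x y ξ : ℂ) : sm (x + y) ξ = sm x ξ + sm y ξ := by
  simp only [sm, Complex.add_re, Complex.add_im]; ring

lemma sm_sub (x y ξ : ℂ) : sm (x - y) ξ = sm x ξ - sm y ξ := by
  simp only [sm, Complex.sub_re, Complex.sub_im]; ring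

lemma Ft_tr (b : ℂ) (f : 𝓢(ℂ, ℂ)) (ξ : ℂ) :
    Ft (tr b f) ξ = Complex.exp (-(2 * (Real.pi : ℂ) * Complex.I * ((sm b ξ : ℝ) : ℂ))) * Ft f ξ := by
  unfold Ft
  rw [← integral_add_right_eq_self _ b, ← integral_const_mul]
  refine integral_congr_ae (Eventually.of_forall fun x => ?_)
  simp only [tr_apply, add_sub_cancel_right, sm_add]
  rw [← mul_assoc, ← Complex.exp_add]
  congr 2
  push_cast
  ring

lemma T_tr (n : ℕ) (b : ℂ) (f : 𝓢(ℂ, ℂ)) (z : ℂ) :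
    T (fun ξ => bs ξ ^ n) (tr b f) z = T (fun ξ => bs ξ ^ n) f (z - b) := by
  unfold T
  refine integral_congr_ae (Eventually.of_forall fun x => ?_)
  simp only [Ft_tr, sm_sub]
  have : Complex.exp (2 * (Real.pi : ℂ) * Complex.I * ((sm z x - sm b x : ℝ) : ℂ))
      = Complex.exp (2 * (Real.pi : ℂ) * Complex.I * ((sm z x : ℝ) : ℂ)) *
        Complex.exp (-(2 * (Real.pi : ℂ) * Complex.I * ((sm b x : ℝ) : ℂ))) := by
    rw [← Complex.exp_add]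
    congr 1
    push_cast
    ring
  rw [this]
  ring

lemma T_smul (n : ℕ) (c : ℂ) (f : 𝓢(ℂ, ℂ)) (z : ℂ) :
    T (fun ξ => bs ξ ^ n) (c • f) z = c * T (fun ξ => bs ξ ^ n) f z := by
  have h : ∀ ξ, Ft (c • f) ξ = c * Ft f ξ := by
    intro ξ
    unfold Ft
    rw [← integral_const_mul]
    refine integral_congr_ae (Eventually.of_forall fun x => ?_)
    simp only [smul_apply, smul_eq_mul]
    ring
  unfold T
  rw [← integral_const_mul]
  refine integral_congr_ae (Eventually.of_forall fun x => ?_)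
  simp only [h]
  ring

lemma T_sub (n : ℕ) (f g : 𝓢(ℂ, ℂ)) (z : ℂ) :
    T (fun ξ => bs ξ ^ n) (f - g) z = T (fun ξ => bs ξ ^ n) f z - T (fun ξ => bs ξ ^ n) g z := by
  have h : ∀ ξ, Ft (f - g) ξ = Ft f ξ - Ft g ξ := by
    intro ξ
    rw [Ft_eq, Ft_eq, Ft_eq]
    have : (𝓕 (f - g) : 𝓢(ℂ, ℂ)) = 𝓕 f - 𝓕 g := map_sub (FourierTransform.fourierCLM ℂ 𝓢(ℂ, ℂ)) f g
    rw [this]
    rfl
  unfold T
  rw [← integral_sub (T_integrand_int (adm_pow n) f z) (T_integrand_int (adm_pow n) g z)]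
  refine integral_congr_ae (Eventually.of_forall fun x => ?_)
  simp only [h]
  ring

end Pool.Agent.Q168.BT
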