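import Pool.Agent.Q168.BT.Sym

set_option autoImplicit false
open MeasureTheory Filter Topology
open scoped FourierTransform SchwartzMap ENNReal

namespace Pool.Agent.Q168.BT

open Pool.Agent.TH55.PowA

/-- the generator of the group of rotations of order `m` -/
noncomputable def rt (m : ℕ) : ℂ := Complex.exp (2 * Real.pi * Complex.I / m)

lemma rt_prim {m : ℕ} (hm : m ≠ 0) : IsPrimitiveRoot (rt m) m := Complex.isPrimitiveRoot_exp m hm

lemma rt_norm {m : ℕ} (hm : m ≠ 0) (l : ℕ) : ‖rt m ^ l‖ = 1 := by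
  rw [norm_pow, (rt_prim hm).norm'_eq_one hm, one_pow]

lemma rt_ne {m : ℕ} (hm : m ≠ 0) (l : ℕ) : rt m ^ l ≠ 0 := by
  intro h
  have := rt_norm hm l
  rw [h, norm_zero] at this
  exact zero_ne_one this

/-- `m` copies -/
noncomputable def cps (m : ℕ) (c : ℕ → ℂ) (N : ℝ) (h : ℂ → ℂ) (z : ℂ) : ℂ :=
  ∑ l ∈ Finset.range m, c l * h (rt m ^ l * z - N)

lemma sep {m : ℕ} (hm : m ≠ 0) (R : ℝ) : ∃ N₀ : ℝ, 0 < N₀ ∧ ∀ N : ℝ, N₀ ≤ N → ∀ l < m, ∀ l' < m, ∀ z : ℂ,
    ‖rt m ^ l * z - N‖ ≤ R → ‖rt m ^ l' * z - N‖ ≤ R → l = l' := by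
  -- distances between the different powers
  have hfin : ∃ δ : ℝ, 0 < δ ∧ ∀ l < m, ∀ l' < m, l ≠ l' → δ ≤ ‖rt m ^ l - rt m ^ l'‖ := by
    classical
    set S := ((Finset.range m ×ˢ Finset.range m).filter (fun x => x.1 ≠ x.2)) with hS
    rcases S.eq_empty_or_nonempty with h | h
    · refine ⟨1, one_pos, fun l hl l' hl' hne => ?_⟩
      have : (l, l') ∈ S := by
        rw [hS, Finset.mem_filter, Finset.mem_product]
        exact ⟨⟨Finset.mem_range.2 hl, Finset.mem_range.2 hl'⟩, hne⟩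
      rw [h] at this
      simp at this
    · obtain ⟨x, hx, hmin⟩ := S.exists_min_image (fun x => ‖rt m ^ x.1 - rt m ^ x.2‖) h
      refine ⟨‖rt m ^ x.1 - rt m ^ x.2‖, ?_, fun l hl l' hl' hne => ?_⟩
      · rw [norm_pos_iff, sub_ne_zero]
        intro he
        rw [hS, Finset.mem_filter, Finset.mem_product, Finset.mem_range, Finset.mem_range] at hx
        exact hx.2 ((rt_prim hm).pow_inj hx.1.1 hx.1.2 he)
      · exact hmin (l, l') (by
          rw [hS, Finset.mem_filter, Finset.mem_product]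
          exact ⟨⟨Finset.mem_range.2 hl, Finset.mem_range.2 hl'⟩, hne⟩)
  obtain ⟨δ, hδ, hd⟩ := hfin
  refine ⟨2 * |R| / δ + 1, by positivity, fun N hN l hl l' hl' z h1 h2 => ?_⟩
  by_contra hne
  have h3 := hd l hl l' hl' hne
  have hN0 : 0 < N := lt_of_lt_of_le (by positivity) hN
  have h4 : ‖(rt m ^ l' - rt m ^ l) * (N : ℂ)‖ ≤ 2 * R := by
    have e : (rt m ^ l' - rt m ^ l) * (N : ℂ)
        = rt m ^ l * (rt m ^ l' * z - N) - rt m ^ l' * (rt m ^ l * z - N) := by ring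
    rw [e]
    refine (norm_sub_le _ _).trans ?_
    rw [norm_mul, norm_mul, rt_norm hm, rt_norm hm]
    linarith
  rw [norm_mul, Complex.norm_real, Real.norm_of_nonneg hN0.le, norm_sub_rev] at h4
  have h5 : δ * N ≤ 2 * |R| := by
    calc δ * N ≤ ‖rt m ^ l - rt m ^ l'‖ * N := mul_le_mul_of_nonneg_right h3 hN0.le
      _ ≤ 2 * R := h4
      _ ≤ _ := by linarith [le_abs_self R]
  have h6 : δ * (2 * |R| / δ + 1) ≤ δ * N := mul_le_mul_of_nonneg_left hN hδ.le
  have h7 : δ * (2 * |R| / δ + 1) = 2 * |R| + δ := by field_simp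
  linarith

lemma meas_piece {m : ℕ} (hm : m ≠ 0) (l : ℕ) (N : ℝ) {h : ℂ → ℂ} (hh : Continuous h) :
    Continuous fun z : ℂ => h (rt m ^ l * z - N) := by
  fun_prop

lemma eLp_piece {P : ℝ≥0∞} {m : ℕ} (hm : m ≠ 0) (l : ℕ) (N : ℝ) {h : ℂ → ℂ} (hh : Continuous h) :
    eLpNorm (fun z : ℂ => h (rt m ^ l * z - N)) P volume = eLpNorm h P volume := by
  have h1 := eLp_rot (P := P) (rt m ^ l) (rt_norm hm l) (fun z => h (z - N))
    (hh.comp (continuous_id.sub continuous_const)).aestronglyMeasurable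
  rw [h1]
  exact eLpNorm_comp_measurePreserving hh.aestronglyMeasurable
    (measurePreserving_sub_right volume (N : ℂ))

lemma cps_le {P : ℝ≥0∞} (hP : 1 ≤ P) {m : ℕ} (hm : m ≠ 0) (c : ℕ → ℂ) (hc : ∀ l, ‖c l‖ = 1) (N : ℝ)
    {h : ℂ → ℂ} (hh : Continuous h) :
    eLpNorm (cps m c N h) P volume ≤ m * eLpNorm h P volume := by
  have e : cps m c N h = ∑ l ∈ Finset.range m, (c l • fun z : ℂ => h (rt m ^ l * z - N)) := by
    funext z
    rw [Finset.sum_apply]
    rfl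
  rw [e]
  refine (eLpNorm_sum_le (fun l _ => ((meas_piece hm l N hh).aestronglyMeasurable.const_smul _)) hP).trans ?_
  have h1 : ∀ l ∈ Finset.range m, eLpNorm (c l • fun z : ℂ => h (rt m ^ l * z - N)) P volume
      = eLpNorm h P volume := by
    intro l _
    rw [eLpNorm_const_smul, eLp_piece hm l N hh, ← ofReal_norm, hc l, ENNReal.ofReal_one, one_mul]
  rw [Finset.sum_congr rfl h1, Finset.sum_const, Finset.card_range, nsmul_eq_mul]

lemma cps_eq {P : ℝ≥0∞} (hP0 : P ≠ 0) (hP : P ≠ ∞) {m : ℕ} (hm : m ≠ 0) (c : ℕ → ℂ)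
    (hc : ∀ l, ‖c l‖ = 1) {R : ℝ} {h : ℂ → ℂ} (hh : Continuous h) (hR : ∀ z, R < ‖z‖ → h z = 0)
    {N : ℝ} (hN : ∀ l < m, ∀ l' < m, ∀ z : ℂ,
      ‖rt m ^ l * z - N‖ ≤ R → ‖rt m ^ l' * z - N‖ ≤ R → l = l') :
    eLpNorm (cps m c N h) P volume = (m : ℝ≥0∞) ^ (1 / P.toReal) * eLpNorm h P volume := by
  have hp : 0 < P.toReal := ENNReal.toReal_pos hP0 hP
  rw [eLpNorm_eq_lintegral_rpow_enorm_toReal hP0 hP, eLpNorm_eq_lintegral_rpow_enorm_toReal hP0 hP,
    ← ENNReal.mul_rpow_of_nonneg _ _ (by positivity)]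
  congr 1
  have h1 : ∀ z, ‖cps m c N h z‖ₑ ^ P.toReal
      = ∑ l ∈ Finset.range m, ‖h (rt m ^ l * z - N)‖ₑ ^ P.toReal := by
    intro z
    by_cases hz : ∃ l₀, l₀ < m ∧ h (rt m ^ l₀ * z - N) ≠ 0
    · obtain ⟨l₀, hl₀, hne⟩ := hz
      have h2 : ∀ l ∈ Finset.range m, l ≠ l₀ → h (rt m ^ l * z - N) = 0 := by
        intro l hl hll
        by_contra h3
        refine hll (hN l (Finset.mem_range.1 hl) l₀ hl₀ z ?_ ?_)
        · by_contra h4
          exact h3 (hR _ (not_le.1 h4))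
        · by_contra h4
          exact hne (hR _ (not_le.1 h4))
      unfold cps
      rw [Finset.sum_eq_single_of_mem l₀ (Finset.mem_range.2 hl₀) (fun l hl hll => by
          rw [h2 l hl hll, mul_zero]),
        Finset.sum_eq_single_of_mem l₀ (Finset.mem_range.2 hl₀) (fun l hl hll => by
          rw [h2 l hl hll, enorm_zero, ENNReal.zero_rpow_of_pos hp]), enorm_mul, ← ofReal_norm (c l₀),
        hc, ENNReal.ofReal_one, one_mul]
    · push Not at hz
      unfold cps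
      rw [Finset.sum_eq_zero (fun l hl => by rw [hz l (Finset.mem_range.1 hl), mul_zero]),
        Finset.sum_eq_zero (fun l hl => by
          rw [hz l (Finset.mem_range.1 hl), enorm_zero, ENNReal.zero_rpow_of_pos hp]), enorm_zero,
        ENNReal.zero_rpow_of_pos hp]
  simp only [h1]
  rw [lintegral_finsetSum _ (fun l _ => by
    exact ((meas_piece hm l N hh).enorm.measurable).pow_const _)]
  have h2 : ∀ l ∈ Finset.range m, ∫⁻ z, ‖h (rt m ^ l * z - N)‖ₑ ^ P.toReal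
      = ∫⁻ z, ‖h z‖ₑ ^ P.toReal := by
    intro l _
    have h3 := eLp_piece (P := P) hm l N hh
    rw [eLpNorm_eq_lintegral_rpow_enorm_toReal hP0 hP, eLpNorm_eq_lintegral_rpow_enorm_toReal hP0 hP]
      at h3
    exact (ENNReal.rpow_left_injective (by positivity)) h3
  rw [Finset.sum_congr rfl h2, Finset.sum_const, Finset.card_range, nsmul_eq_mul]

end Pool.Agent.Q168.BT
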