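import Pool.Agent.Q168.BT.Sym2

set_option autoImplicit false
open MeasureTheory Filter Topology
open scoped FourierTransform SchwartzMap ENNReal

namespace Pool.Agent.Q168.BT

open Pool.Agent.TH55.PowA

/-- type `j` under the rotations of order `m` -/
def Sy (m j : ℕ) (f : 𝓢(ℂ, ℂ)) : Prop := ∀ z : ℂ, f (rt m * z) = rt m ^ j * f z

/-- the coefficients of the symmetrisation -/
noncomputable def co (m j l : ℕ) : ℂ := (rt m ^ l) ^ ((m - 1) * j)

lemma co_norm {m : ℕ} (hm : m ≠ 0) (j l : ℕ) : ‖co m j l‖ = 1 := by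
  unfold co
  rw [norm_pow, rt_norm hm, one_pow]

lemma co_step {m : ℕ} (hm : m ≠ 0) (j l : ℕ) : rt m ^ j * co m j (l + 1) = co m j l := by
  unfold co
  have h : rt m ^ m = 1 := (rt_prim hm).pow_eq_one
  have e : rt m ^ j * (rt m ^ (l + 1)) ^ ((m - 1) * j)
      = (rt m ^ l) ^ ((m - 1) * j) * (rt m ^ (1 + (m - 1))) ^ j := by
    rw [← pow_mul, ← pow_mul, ← pow_mul, ← pow_add, ← pow_add]
    congr 1
    ring
  rw [e, Nat.add_sub_cancel' (Nat.one_le_iff_ne_zero.2 hm), h, one_pow, mul_one]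

/-- the symmetrisation of a translate -/
noncomputable def syz (m j : ℕ) (hm : m ≠ 0) (N : ℝ) (g : 𝓢(ℂ, ℂ)) : 𝓢(ℂ, ℂ) :=
  ∑ l ∈ Finset.range m, co m j l • dil (rt m ^ l) (rt_ne hm l) (tr N g)

lemma syz_apply (m j : ℕ) (hm : m ≠ 0) (N : ℝ) (g : 𝓢(ℂ, ℂ)) (z : ℂ) :
    syz m j hm N g z = cps m (co m j) N g z := by
  unfold syz cps
  simp [dil_apply, tr_apply]

lemma cps_rot {m : ℕ} (hm : m ≠ 0) (j : ℕ) (N : ℝ) (h : ℂ → ℂ) (z : ℂ) :
    cps m (co m j) N h (rt m * z) = rt m ^ j * cps m (co m j) N h z := by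
  unfold cps
  set G : ℕ → ℂ := fun l => rt m ^ j * (co m j l * h (rt m ^ l * z - N)) with hG
  have h1 : ∀ l, co m j l * h (rt m ^ l * (rt m * z) - N) = G (l + 1) := by
    intro l
    rw [hG]
    simp only
    rw [← mul_assoc (rt m ^ j), co_step hm, ← mul_assoc (rt m ^ l), ← pow_succ]
  simp only [h1]
  have h2 := Finset.sum_range_succ' G m
  have h3 := Finset.sum_range_succ G m
  have h4 : G m = G 0 := by
    rw [hG]
    simp only [co]
    rw [(rt_prim hm).pow_eq_one, pow_zero]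
  rw [Finset.mul_sum]
  have h5 : ∑ l ∈ Finset.range m, G (l + 1) + G 0 = ∑ l ∈ Finset.range m, G l + G 0 := by
    rw [← h2, h3, h4]
  exact add_right_cancel h5

lemma syz_sy (m j : ℕ) (hm : m ≠ 0) (N : ℝ) (g : 𝓢(ℂ, ℂ)) : Sy m j (syz m j hm N g) := by
  intro z
  rw [syz_apply, syz_apply, cps_rot hm]

lemma T_syz (n m j : ℕ) (hm : m ≠ 0) (N : ℝ) (g : 𝓢(ℂ, ℂ)) :
    T (fun ξ => bs ξ ^ n) (syz m j hm N g) =
      cps m (fun l => co m j l * ((rt m ^ l) / (starRingEnd ℂ) (rt m ^ l)) ^ n) N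
        (T (fun ξ => bs ξ ^ n) g) := by
  funext z
  unfold syz cps
  rw [T_fsum _ (adm_pow n)]
  refine Finset.sum_congr rfl fun l _ => ?_
  rw [T_smul, T_dil, T_tr]
  ring

lemma cc_norm {m : ℕ} (hm : m ≠ 0) (n j l : ℕ) :
    ‖co m j l * ((rt m ^ l) / (starRingEnd ℂ) (rt m ^ l)) ^ n‖ = 1 := by
  rw [norm_mul, co_norm hm, norm_pow, norm_div, RCLike.norm_conj, rt_norm hm]
  simp

lemma eLp_scale {P : ℝ≥0∞} (s : ℝ) (hs : 0 < s) : ∃ κ : ℝ≥0∞, κ ≠ 0 ∧ κ ≠ ∞ ∧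
    ∀ F : ℂ → ℂ, Continuous F →
      eLpNorm (fun z : ℂ => F ((s : ℂ) * z)) P volume = κ * eLpNorm F P volume := by
  have hc : ENNReal.ofReal |(s ^ Module.finrank ℝ ℂ)⁻¹| ≠ 0 := by
    rw [ne_eq, ENNReal.ofReal_eq_zero, not_le]
    positivity
  refine ⟨ENNReal.ofReal |(s ^ Module.finrank ℝ ℂ)⁻¹| ^ (1 / P).toReal, ?_, ?_, fun F hF => ?_⟩
  · exact (ENNReal.rpow_pos (pos_iff_ne_zero.2 hc) ENNReal.ofReal_ne_top).ne'
  · exact ENNReal.rpow_ne_top_of_nonneg ENNReal.toReal_nonneg ENNReal.ofReal_ne_top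
  · have h1 := Measure.map_addHaar_smul (volume : Measure ℂ) hs.ne'
    have h2 : eLpNorm F P (Measure.map (fun z : ℂ => s • z) volume)
        = eLpNorm (F ∘ fun z : ℂ => s • z) P volume :=
      eLpNorm_map_measure hF.aestronglyMeasurable (by fun_prop)
    have h3 : (fun z : ℂ => F ((s : ℂ) * z)) = F ∘ fun z : ℂ => s • z := by
      funext z
      simp
    rw [h3, ← h2]
    have h4 : Measure.map (fun z : ℂ => s • z) volume
        = ENNReal.ofReal |(s ^ Module.finrank ℝ ℂ)⁻¹| • (volume : Measure ℂ) := h1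
    rw [h4, eLpNorm_smul_measure_of_ne_zero hc, smul_eq_mul]

/-- bound on the class -/
def BdC (P : ℝ≥0∞) (n m j : ℕ) (K : ℝ≥0∞) : Prop :=
  ∀ f : 𝓢(ℂ, ℂ), Sy m j f → (∀ z, 1 ≤ ‖z‖ → f z = 0) →
    eLpNorm (T (fun ξ => bs ξ ^ n) f) P volume ≤ K * eLpNorm f P volume

lemma bd_cpt {P : ℝ≥0∞} {n m j : ℕ} {K : ℝ≥0∞} (h : BdC P n m j K) {g : 𝓢(ℂ, ℂ)} (hg : Sy m j g)
    {R : ℝ} (hR : 0 ≤ R) (hgR : ∀ z, R < ‖z‖ → g z = 0) :
    eLpNorm (T (fun ξ => bs ξ ^ n) g) P volume ≤ K * eLpNorm g P volume := by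
  have hs : 0 < R + 1 := by linarith
  have hs0 : ((R + 1 : ℝ) : ℂ) ≠ 0 := by exact_mod_cast hs.ne'
  have h1 := h (dil ((R + 1 : ℝ) : ℂ) hs0 g) (fun z => by
    rw [dil_apply, dil_apply, ← hg]
    congr 1
    ring) (fun z hz => by
    rw [dil_apply]
    refine hgR _ ?_
    rw [norm_mul, Complex.norm_real, Real.norm_of_nonneg hs.le]
    nlinarith)
  obtain ⟨κ, hκ0, hκt, hκ⟩ := eLp_scale (P := P) (R + 1) hs
  have h2 : T (fun ξ => bs ξ ^ n) (dil ((R + 1 : ℝ) : ℂ) hs0 g)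
      = fun z => T (fun ξ => bs ξ ^ n) g (((R + 1 : ℝ) : ℂ) * z) := by
    funext z
    rw [T_dil, Complex.conj_ofReal, div_self hs0, one_pow, one_mul]
  have h3 : (⇑(dil ((R + 1 : ℝ) : ℂ) hs0 g) : ℂ → ℂ) = fun z => g (((R + 1 : ℝ) : ℂ) * z) := by
    funext z
    rfl
  rw [h2, h3, hκ _ (T_cont (adm_pow n) g), hκ _ g.continuous] at h1
  have h4 : κ * eLpNorm (T (fun ξ => bs ξ ^ n) g) P volume ≤ κ * (K * eLpNorm g P volume) := by
    calc _ ≤ _ := h1
      _ = _ := by ring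
  exact (ENNReal.mul_le_mul_iff_right hκ0 hκt).1 h4

lemma bd_all_cpt {P : ℝ≥0∞} (hP : 1 ≤ P) (hPt : P ≠ ∞) {n m j : ℕ} (hm : m ≠ 0) {K : ℝ≥0∞}
    (h : BdC P n m j K) {g : 𝓢(ℂ, ℂ)} {R : ℝ} (hgR : ∀ z, R < ‖z‖ → g z = 0)
    (hmem : MemLp (T (fun ξ => bs ξ ^ n) g) P volume) :
    eLpNorm (T (fun ξ => bs ξ ^ n) g) P volume ≤ K * eLpNorm g P volume := by
  have hP0 : P ≠ 0 := (lt_of_lt_of_le one_pos hP).ne'
  have hp : 0 < P.toReal := ENNReal.toReal_pos hP0 hPt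
  have hp1 : 1 ≤ P.toReal := by
    rw [← ENNReal.toReal_one]
    exact ENNReal.toReal_mono hPt hP
  have hm1 : (1 : ℝ≥0∞) ≤ m := by exact_mod_cast Nat.one_le_iff_ne_zero.2 hm
  have hmt : (m : ℝ≥0∞) ≠ ∞ := ENNReal.natCast_ne_top m
  have hm0 : (m : ℝ≥0∞) ≠ 0 := by exact_mod_cast hm
  have hr0 : (m : ℝ≥0∞) ^ (1 / P.toReal) ≠ 0 := (ENNReal.rpow_pos (pos_iff_ne_zero.2 hm0) hmt).ne'
  have hrt : (m : ℝ≥0∞) ^ (1 / P.toReal) ≠ ∞ := ENNReal.rpow_ne_top_of_nonneg (by positivity) hmt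
  have hrm : (m : ℝ≥0∞) ^ (1 / P.toReal) ≤ m := by
    calc (m : ℝ≥0∞) ^ (1 / P.toReal) ≤ (m : ℝ≥0∞) ^ (1 : ℝ) :=
          ENNReal.rpow_le_rpow_of_exponent_le hm1 (by rw [div_le_one hp]; exact hp1)
      _ = m := ENNReal.rpow_one _
  set F := T (fun ξ => bs ξ ^ n) g with hF
  have hFc : Continuous F := T_cont (adm_pow n) g
  have key : (m : ℝ≥0∞) ^ (1 / P.toReal) * eLpNorm F P volume
      ≤ (m : ℝ≥0∞) ^ (1 / P.toReal) * (K * eLpNorm g P volume) := by
    refine ENNReal.le_of_forall_pos_le_add fun δ hδ _ => ?_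
    have hε : (δ : ℝ≥0∞) / (2 * m) ≠ 0 := by
      refine (ENNReal.div_pos (by exact_mod_cast hδ.ne') ?_).ne'
      exact ENNReal.mul_ne_top (by norm_num) hmt
    obtain ⟨u, hu1, hu2, hu3, hu4⟩ := hmem.exists_hasCompactSupport_eLpNorm_sub_le hPt hε
    obtain ⟨R', hR'⟩ := hu1.isBounded.subset_closedBall (0 : ℂ)
    have huR : ∀ z, R' < ‖z‖ → u z = 0 := by
      intro z hz
      by_contra hne
      have := hR' (subset_tsupport u hne)
      rw [mem_closedBall_zero_iff] at this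
      linarith
    obtain ⟨N₀, hN0, hN⟩ := sep hm (max R R')
    have hNN := hN N₀ le_rfl
    set c' : ℕ → ℂ := fun l => co m j l * ((rt m ^ l) / (starRingEnd ℂ) (rt m ^ l)) ^ n with hc'
    have hcn : ∀ l, ‖c' l‖ = 1 := fun l => cc_norm hm n j l
    have e1 : eLpNorm (cps m c' N₀ u) P volume
        = (m : ℝ≥0∞) ^ (1 / P.toReal) * eLpNorm u P volume :=
      cps_eq hP0 hPt hm c' hcn hu3 (fun z hz => huR z (lt_of_le_of_lt (le_max_right _ _) hz)) hNN
    have e2 : eLpNorm (cps m (co m j) N₀ g) P volume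
        = (m : ℝ≥0∞) ^ (1 / P.toReal) * eLpNorm g P volume :=
      cps_eq hP0 hPt hm _ (co_norm hm j) g.continuous
        (fun z hz => hgR z (lt_of_le_of_lt (le_max_left _ _) hz)) hNN
    have e3 : eLpNorm (cps m c' N₀ F) P volume ≤ K * eLpNorm (cps m (co m j) N₀ g) P volume := by
      have h1 := bd_cpt h (syz_sy m j hm N₀ g) (R := N₀ + |R|) (by positivity) (fun z hz => by
        rw [syz_apply]
        unfold cps
        refine Finset.sum_eq_zero fun l _ => ?_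
        rw [hgR, mul_zero]
        have h2 : ‖rt m ^ l * z‖ - ‖(N₀ : ℂ)‖ ≤ ‖rt m ^ l * z - N₀‖ := norm_sub_norm_le _ _
        rw [norm_mul, rt_norm hm, one_mul, Complex.norm_real, Real.norm_of_nonneg hN0.le] at h2
        have := le_abs_self R
        linarith)
      rw [T_syz] at h1
      have h3 : (⇑(syz m j hm N₀ g) : ℂ → ℂ) = cps m (co m j) N₀ g := funext (syz_apply m j hm N₀ g)
      rw [h3] at h1
      exact h1
    have e4 : eLpNorm (cps m c' N₀ u) P volume ≤ eLpNorm (cps m c' N₀ F) P volume +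
        m * ((δ : ℝ≥0∞) / (2 * m)) := by
      have h5 : cps m c' N₀ u = cps m c' N₀ F - cps m c' N₀ (F - u) := by
        funext z
        rw [Pi.sub_apply]
        unfold cps
        rw [← Finset.sum_sub_distrib]
        refine Finset.sum_congr rfl fun l _ => ?_
        rw [Pi.sub_apply]
        ring
      have hcc : ∀ w : ℂ → ℂ, Continuous w → Continuous (cps m c' N₀ w) := by
        intro w hw
        unfold cps
        exact continuous_finsetSum _ fun l _ => (meas_piece hm l N₀ hw).const_smul (c' l)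
      rw [h5]
      refine (eLpNorm_sub_le (hcc F hFc).aestronglyMeasurable
        (hcc _ (hFc.sub hu3)).aestronglyMeasurable hP).trans ?_
      gcongr
      refine (cps_le hP hm c' hcn N₀ (hFc.sub hu3)).trans ?_
      gcongr
    have e5 : eLpNorm F P volume ≤ eLpNorm u P volume + (δ : ℝ≥0∞) / (2 * m) := by
      have h6 : F = u + (F - u) := by simp
      conv_lhs => rw [h6]
      refine (eLpNorm_add_le hu3.aestronglyMeasurable (hFc.sub hu3).aestronglyMeasurable hP).trans ?_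
      gcongr
    calc (m : ℝ≥0∞) ^ (1 / P.toReal) * eLpNorm F P volume
        ≤ (m : ℝ≥0∞) ^ (1 / P.toReal) * (eLpNorm u P volume + (δ : ℝ≥0∞) / (2 * m)) := by gcongr
      _ = eLpNorm (cps m c' N₀ u) P volume + (m : ℝ≥0∞) ^ (1 / P.toReal) * ((δ : ℝ≥0∞) / (2 * m)) := by
          rw [e1, mul_add]
      _ ≤ (K * eLpNorm (cps m (co m j) N₀ g) P volume + m * ((δ : ℝ≥0∞) / (2 * m)))
          + m * ((δ : ℝ≥0∞) / (2 * m)) := by
          gcongr
          exact e4.trans (by gcongr)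
      _ = (m : ℝ≥0∞) ^ (1 / P.toReal) * (K * eLpNorm g P volume) + (2 * m) * ((δ : ℝ≥0∞) / (2 * m)) := by
          rw [e2]
          ring
      _ = _ := by
          rw [ENNReal.mul_div_cancel (mul_ne_zero (by norm_num) hm0)
            (ENNReal.mul_ne_top (by norm_num) hmt)]
  exact (ENNReal.mul_le_mul_iff_right hr0 hrt).1 key

/-- **finite rotational symmetry and localisation do not change the norm** -/
theorem sym_main (p : ℝ) (hp : 2 ≤ p) (n : ℕ) (hn : 1 ≤ n) {m j : ℕ} (hm : m ≠ 0) {K : ℝ≥0∞}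
    (hK : K ≠ ∞) (h : BdC (ENNReal.ofReal p) n m j K) (f : 𝓢(ℂ, ℂ)) :
    eLpNorm (T (fun ξ => bs ξ ^ n) f) (ENNReal.ofReal p) volume
      ≤ K * eLpNorm f (ENNReal.ofReal p) volume := by
  have hP : 1 ≤ ENNReal.ofReal p := by
    rw [← ENNReal.ofReal_one]
    exact ENNReal.ofReal_le_ofReal (by linarith)
  have hPt : ENNReal.ofReal p ≠ ∞ := ENNReal.ofReal_ne_top
  obtain ⟨C, hC0, hC⟩ : ∃ C : ℝ, 0 ≤ C ∧ ∀ f : 𝓢(ℂ, ℂ),
      eLpNorm (T (fun ξ => bs ξ ^ n) f) (ENNReal.ofReal p) volume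
      ≤ ENNReal.ofReal C * eLpNorm f (ENNReal.ofReal p) volume := by
    refine ⟨max (Cn n * (p - 1)) 0, le_max_right _ _, fun f => (main p hp n hn f).trans ?_⟩
    gcongr
    exact le_max_left _ _
  have hmemT : ∀ g : 𝓢(ℂ, ℂ), MemLp (T (fun ξ => bs ξ ^ n) g) (ENNReal.ofReal p) volume := by
    intro g
    refine ⟨(T_cont (adm_pow n) g).aestronglyMeasurable, lt_of_le_of_lt (hC g) ?_⟩
    exact ENNReal.mul_lt_top ENNReal.ofReal_lt_top (g.memLp _ _).eLpNorm_lt_top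
  refine ENNReal.le_of_forall_pos_le_add fun δ hδ _ => ?_
  have hδ' : (0 : ℝ) < δ := by exact_mod_cast hδ
  have hKr : 0 ≤ K.toReal := ENNReal.toReal_nonneg
  obtain ⟨g, hg1, hg2, hg3⟩ := (f.memLp (ENNReal.ofReal p) volume).exist_eLpNorm_sub_le hPt hP
    (ε := (δ : ℝ) / (K.toReal + C + 1)) (by positivity)
  set G : 𝓢(ℂ, ℂ) := hg1.toSchwartzMap hg2 with hG
  have hGg : (⇑G : ℂ → ℂ) = g := rfl
  obtain ⟨R, hR⟩ := hg1.isBounded.subset_closedBall (0 : ℂ)
  have hGR : ∀ z, R < ‖z‖ → G z = 0 := by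
    intro z hz
    rw [hGg]
    by_contra hne
    have := hR (subset_tsupport g hne)
    rw [mem_closedBall_zero_iff] at this
    linarith
  have h1 := bd_all_cpt hP hPt hm h hGR (hmemT G)
  have h2 : T (fun ξ => bs ξ ^ n) f = T (fun ξ => bs ξ ^ n) G + T (fun ξ => bs ξ ^ n) (f - G) := by
    funext z
    rw [Pi.add_apply, T_sub]
    ring
  have h3 : eLpNorm (⇑(f - G) : ℂ → ℂ) (ENNReal.ofReal p) volume
      ≤ ENNReal.ofReal ((δ : ℝ) / (K.toReal + C + 1)) := by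
    have : (⇑(f - G) : ℂ → ℂ) = ⇑f - g := by
      funext z
      simp [hGg]
    rw [this]
    exact hg3
  have h4 : eLpNorm (⇑G : ℂ → ℂ) (ENNReal.ofReal p) volume
      ≤ eLpNorm f (ENNReal.ofReal p) volume + ENNReal.ofReal ((δ : ℝ) / (K.toReal + C + 1)) := by
    have : (⇑G : ℂ → ℂ) = ⇑f - ⇑(f - G) := by
      funext z
      simp
    rw [this]
    refine (eLpNorm_sub_le f.continuous.aestronglyMeasurable
      (f - G).continuous.aestronglyMeasurable hP).trans ?_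
    gcongr
  rw [h2]
  refine (eLpNorm_add_le (T_cont (adm_pow n) G).aestronglyMeasurable
    (T_cont (adm_pow n) (f - G)).aestronglyMeasurable hP).trans ?_
  calc _ ≤ K * (eLpNorm f (ENNReal.ofReal p) volume +
        ENNReal.ofReal ((δ : ℝ) / (K.toReal + C + 1))) +
        ENNReal.ofReal C * ENNReal.ofReal ((δ : ℝ) / (K.toReal + C + 1)) := by
        gcongr
        · exact h1.trans (by gcongr)
        · exact (hC _).trans (by gcongr)
    _ = K * eLpNorm f (ENNReal.ofReal p) volume +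
        (K + ENNReal.ofReal C) * ENNReal.ofReal ((δ : ℝ) / (K.toReal + C + 1)) := by ring
    _ ≤ _ := by
        gcongr
        have : K = ENNReal.ofReal K.toReal := (ENNReal.ofReal_toReal hK).symm
        conv_lhs => rw [this]
        rw [← ENNReal.ofReal_add hKr hC0, ← ENNReal.ofReal_mul (by positivity),
          ENNReal.ofReal_toReal hK]
        have h5 : (K.toReal + C) * ((δ : ℝ) / (K.toReal + C + 1)) ≤ δ := by
          rw [mul_div_assoc', div_le_iff₀ (by positivity)]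
          nlinarith
        calc _ ≤ ENNReal.ofReal (δ : ℝ) := ENNReal.ofReal_le_ofReal h5
          _ = δ := ENNReal.ofReal_coe_nnreal

end Pool.Agent.Q168.BT
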